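import Mathlib

set_option autoImplicit false

/-!
The functors `V` on von Neumann regular rings and on C*-algebras of real rank zero, and liftings of
diagrams of commutative monoids with respect to them.
-/

namespace Pool.Agent.W408.LD

open CategoryTheory

universe u v

/-- The block diagonal matrix `diag(e, f)`. -/
def blk {R : Type u} [Zero R] {m n : ℕ} (e : Matrix (Fin m) (Fin m) R)
    (f : Matrix (Fin n) (Fin n) R) : Matrix (Fin (m + n)) (Fin (m + n)) R :=
  (Matrix.fromBlocks e 0 0 f).submatrix finSumFinEquiv.symm finSumFinEquiv.symm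

/-! ### Rectangular equivalence of idempotent matrices -/

theorem rowcol {R : Type u} [NonUnitalRing R] {a₁ a₂ b₁ b₂ c : Type} [Fintype c]
    {a : Matrix a₁ c R} {b : Matrix a₂ c R} {x : Matrix c b₁ R} {y : Matrix c b₂ R} :
    Matrix.fromRows a b * Matrix.fromCols x y =
      Matrix.fromBlocks (a * x) (a * y) (b * x) (b * y) := by
  ext (i | i) (j | j) <;> rfl

theorem colrow {R : Type u} [NonUnitalRing R] {a₁ b₁ c d : Type} [Fintype c] [Fintype d]
    {a : Matrix a₁ c R} {b : Matrix a₁ d R} {x : Matrix c b₁ R} {y : Matrix d b₁ R} :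
    Matrix.fromCols a b * Matrix.fromRows x y = a * x + b * y := by
  ext i j
  rw [Matrix.mul_apply, Fintype.sum_sum_type]
  rfl

section
variable {R : Type u} [NonUnitalRing R] {ι κ μ ν : Type} [Fintype ι] [Fintype κ] [Fintype μ]
  [Fintype ν]

/-- Murray-von Neumann equivalence of idempotent matrices: `e = x y` and `f = y x` for some
rectangular matrices `x`, `y`. -/
def Eqv (e : Matrix ι ι R) (f : Matrix κ κ R) : Prop :=
  ∃ (x : Matrix ι κ R) (y : Matrix κ ι R), x * y = e ∧ y * x = f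

theorem Eqv.refl {e : Matrix ι ι R} (he : e * e = e) : Eqv e e := ⟨e, e, he, he⟩

theorem Eqv.symm {e : Matrix ι ι R} {f : Matrix κ κ R} (h : Eqv e f) : Eqv f e := by
  obtain ⟨x, y, h1, h2⟩ := h
  exact ⟨y, x, h2, h1⟩

theorem Eqv.trans {e : Matrix ι ι R} {f : Matrix κ κ R} {g : Matrix μ μ R} (he : e * e = e)
    (hg : g * g = g) (h : Eqv e f) (h' : Eqv f g) : Eqv e g := by
  obtain ⟨x, y, h1, h2⟩ := h
  obtain ⟨x', y', h1', h2'⟩ := h'
  refine ⟨x * x', y' * y, ?_, ?_⟩
  · rw [Matrix.mul_assoc, ← Matrix.mul_assoc x', h1', ← h2, Matrix.mul_assoc, ← Matrix.mul_assoc,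
      h1, he]
  · rw [Matrix.mul_assoc, ← Matrix.mul_assoc y, h2, ← h1', Matrix.mul_assoc, ← Matrix.mul_assoc,
      h2', hg]

theorem Eqv.reindex {e : Matrix ι ι R} (he : e * e = e) (σ : ι ≃ κ) :
    Eqv e (e.submatrix σ.symm σ.symm) := by
  refine ⟨e.submatrix id σ.symm, e.submatrix σ.symm id, ?_, ?_⟩
  · rw [Matrix.submatrix_mul_equiv, he]
    rfl
  · have h := Matrix.submatrix_mul_equiv e e σ.symm (Equiv.refl ι) σ.symm
    rw [he] at h
    exact h

theorem Eqv.blocks {e : Matrix ι ι R} {f : Matrix κ κ R} {e' : Matrix μ μ R}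
    {f' : Matrix ν ν R} (h : Eqv e f) (h' : Eqv e' f') :
    Eqv (Matrix.fromBlocks e 0 0 e') (Matrix.fromBlocks f 0 0 f') := by
  obtain ⟨x, y, h1, h2⟩ := h
  obtain ⟨x', y', h1', h2'⟩ := h'
  refine ⟨Matrix.fromBlocks x 0 0 x', Matrix.fromBlocks y 0 0 y', ?_, ?_⟩
  · rw [Matrix.fromBlocks_multiply]
    simp [h1, h1']
  · rw [Matrix.fromBlocks_multiply]
    simp [h2, h2']

theorem Eqv.zero : Eqv (0 : Matrix ι ι R) (0 : Matrix κ κ R) :=
  ⟨0, 0, by simp, by simp⟩

theorem Eqv.stab {e : Matrix ι ι R} (he : e * e = e) :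
    Eqv (Matrix.fromBlocks e 0 0 (0 : Matrix κ κ R)) e := by
  refine ⟨Matrix.fromRows e 0, Matrix.fromCols e 0, ?_, ?_⟩
  · rw [rowcol]
    simp [he]
  · rw [colrow]
    simp [he]

theorem idem_blocks {e : Matrix ι ι R} {f : Matrix κ κ R} (he : e * e = e) (hf : f * f = f) :
    Matrix.fromBlocks e 0 0 f * Matrix.fromBlocks e 0 0 f = Matrix.fromBlocks e 0 0 f := by
  rw [Matrix.fromBlocks_multiply]
  simp [he, hf]

theorem idem_sub {e : Matrix ι ι R} (he : e * e = e) (σ : κ ≃ ι) :
    e.submatrix σ σ * e.submatrix σ σ = e.submatrix σ σ := by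
  rw [Matrix.submatrix_mul_equiv, he]

theorem blk_idem {m n : ℕ} {e : Matrix (Fin m) (Fin m) R} {f : Matrix (Fin n) (Fin n) R}
    (he : e * e = e) (hf : f * f = f) : blk e f * blk e f = blk e f :=
  idem_sub (idem_blocks he hf) _

theorem Eqv.blk {m n : ℕ} {e : Matrix (Fin m) (Fin m) R} {f : Matrix (Fin n) (Fin n) R}
    (he : e * e = e) (hf : f * f = f) : Eqv (Matrix.fromBlocks e 0 0 f) (LD.blk e f) :=
  Eqv.reindex (idem_blocks he hf) finSumFinEquiv

end

/-! ### The monoid `V(R)` of a ring -/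

/-- An idempotent square matrix over `R`. -/
structure Idem (R : Type u) [NonUnitalRing R] where
  size : ℕ
  mat : Matrix (Fin size) (Fin size) R
  idem : mat * mat = mat

section
variable {R : Type u} [NonUnitalRing R]

/-- Murray-von Neumann equivalence as a setoid. -/
def Idem.setoid (R : Type u) [NonUnitalRing R] : Setoid (Idem R) where
  r e f := Eqv e.mat f.mat
  iseqv :=
    { refl := fun e => Eqv.refl e.idem
      symm := fun h => h.symm
      trans := fun {e _ g} h h' => Eqv.trans e.idem g.idem h h' }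

/-- The set `V(R)` of Murray-von Neumann equivalence classes of idempotent square matrices. -/
def V (R : Type u) [NonUnitalRing R] : Type u := Quotient (Idem.setoid R)

/-- The class `[e]` in `V(R)`. -/
def V.mk (e : Idem R) : V R := Quotient.mk (Idem.setoid R) e

/-- The block diagonal sum of idempotent matrices. -/
def Idem.add (e f : Idem R) : Idem R := ⟨e.size + f.size, blk e.mat f.mat, blk_idem e.idem f.idem⟩

/-- The idempotent matrix of size zero. -/
def Idem.zero (R : Type u) [NonUnitalRing R] : Idem R := ⟨0, 0, by simp⟩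

theorem Idem.add_congr {e e' f f' : Idem R} (h : Eqv e.mat e'.mat) (h' : Eqv f.mat f'.mat) :
    Eqv (e.add f).mat (e'.add f').mat := by
  have h1 := Eqv.blk e.idem f.idem
  have h2 := Eqv.blk e'.idem f'.idem
  exact Eqv.trans (blk_idem e.idem f.idem) (blk_idem e'.idem f'.idem)
    (Eqv.trans (blk_idem e.idem f.idem) (idem_blocks e'.idem f'.idem) h1.symm (h.blocks h')) h2

theorem Idem.add_zero_eq (e : Idem R) : Eqv (e.add (Idem.zero R)).mat e.mat := by
  have h1 := Eqv.blk e.idem (Idem.zero R).idem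
  exact Eqv.trans (blk_idem e.idem (Idem.zero R).idem) e.idem h1.symm (Eqv.stab e.idem)

theorem Idem.add_comm_eq (e f : Idem R) : Eqv (e.add f).mat (f.add e).mat := by
  have h1 := Eqv.blk e.idem f.idem
  have h2 := Eqv.blk f.idem e.idem
  have h3 : Eqv (Matrix.fromBlocks e.mat 0 0 f.mat) (Matrix.fromBlocks f.mat 0 0 e.mat) := by
    have := Eqv.reindex (idem_blocks e.idem f.idem) (Equiv.sumComm (Fin e.size) (Fin f.size))
    have h4 : (Matrix.fromBlocks e.mat 0 0 f.mat).submatrix
        (Equiv.sumComm (Fin e.size) (Fin f.size)).symm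
        (Equiv.sumComm (Fin e.size) (Fin f.size)).symm = Matrix.fromBlocks f.mat 0 0 e.mat := by
      ext (i | i) (j | j) <;> rfl
    rwa [h4] at this
  exact Eqv.trans (blk_idem e.idem f.idem) (blk_idem f.idem e.idem)
    (Eqv.trans (blk_idem e.idem f.idem) (idem_blocks f.idem e.idem) h1.symm h3) h2

theorem Idem.add_assoc_eq (e f g : Idem R) :
    Eqv ((e.add f).add g).mat (e.add (f.add g)).mat := by
  have h1 := Eqv.blk (e.add f).idem g.idem
  have h2 := Eqv.blk e.idem (f.add g).idem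
  have h3 := (Eqv.blk e.idem f.idem).blocks (Eqv.refl g.idem)
  have h4 := (Eqv.refl e.idem).blocks (Eqv.blk f.idem g.idem)
  have hl := idem_blocks (idem_blocks e.idem f.idem) g.idem
  have hr := idem_blocks e.idem (idem_blocks f.idem g.idem)
  have h5 : Eqv (Matrix.fromBlocks (Matrix.fromBlocks e.mat 0 0 f.mat) 0 0 g.mat)
      (Matrix.fromBlocks e.mat 0 0 (Matrix.fromBlocks f.mat 0 0 g.mat)) := by
    have := Eqv.reindex hl (Equiv.sumAssoc (Fin e.size) (Fin f.size) (Fin g.size))
    have h6 : (Matrix.fromBlocks (Matrix.fromBlocks e.mat 0 0 f.mat) 0 0 g.mat).submatrix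
        (Equiv.sumAssoc (Fin e.size) (Fin f.size) (Fin g.size)).symm
        (Equiv.sumAssoc (Fin e.size) (Fin f.size) (Fin g.size)).symm =
        Matrix.fromBlocks e.mat 0 0 (Matrix.fromBlocks f.mat 0 0 g.mat) := by
      ext (i | i | i) (j | j | j) <;> rfl
    rwa [h6] at this
  have i1 := blk_idem (e.add f).idem g.idem
  have i2 := blk_idem e.idem (f.add g).idem
  have j1 := idem_blocks (e.add f).idem g.idem
  have j2 := idem_blocks e.idem (f.add g).idem
  exact Eqv.trans i1 i2 (Eqv.trans i1 j2 (Eqv.trans i1 hr (Eqv.trans i1 hl h1.symm h3.symm) h5) h4) h2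

instance V.instAdd (R : Type u) [NonUnitalRing R] : Add (V R) :=
  ⟨Quotient.map₂ Idem.add (fun _ _ h _ _ h' => Idem.add_congr h h')⟩

instance V.instZero (R : Type u) [NonUnitalRing R] : Zero (V R) := ⟨V.mk (Idem.zero R)⟩

/-- The commutative monoid `V(R)`: addition is the block diagonal sum. -/
instance V.monoid (R : Type u) [NonUnitalRing R] : AddCommMonoid (V R) where
  add_assoc := by
    rintro ⟨a⟩ ⟨b⟩ ⟨c⟩
    exact Quotient.sound (s := Idem.setoid R) (Idem.add_assoc_eq a b c)
  add_comm := by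
    rintro ⟨a⟩ ⟨b⟩
    exact Quotient.sound (s := Idem.setoid R) (Idem.add_comm_eq a b)
  add_zero := by
    rintro ⟨a⟩
    exact Quotient.sound (s := Idem.setoid R) (Idem.add_zero_eq a)
  zero_add := by
    rintro ⟨a⟩
    exact Quotient.sound (s := Idem.setoid R)
      (Eqv.trans (Idem.idem _) a.idem (Idem.add_comm_eq _ a) (Idem.add_zero_eq a))
  nsmul := nsmulRec

theorem V.mk_eq {e f : Idem R} : V.mk e = V.mk f ↔ Eqv e.mat f.mat :=
  Quotient.eq (r := Idem.setoid R)

theorem V.add_mk (e f : Idem R) : V.mk e + V.mk f = V.mk (e.add f) := rfl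

theorem V.zero_mk : (0 : V R) = V.mk (Idem.zero R) := rfl

end

section
variable {R : Type u} {S : Type v} [NonUnitalRing R] [NonUnitalRing S]

/-- The image of an idempotent matrix under a ring homomorphism (entrywise). -/
def Idem.map (φ : R →ₙ+* S) (e : Idem R) : Idem S :=
  ⟨e.size, e.mat.map φ, by rw [← Matrix.map_mul, e.idem]⟩

theorem Eqv.map {ι κ : Type} [Fintype ι] [Fintype κ] {e : Matrix ι ι R} {f : Matrix κ κ R}
    (h : Eqv e f) (φ : R →ₙ+* S) : Eqv (e.map φ) (f.map φ) := by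
  obtain ⟨x, y, h1, h2⟩ := h
  refine ⟨x.map φ, y.map φ, ?_, ?_⟩
  · rw [← Matrix.map_mul, h1]
  · rw [← Matrix.map_mul, h2]

theorem blk_map {m n : ℕ} (φ : R →ₙ+* S) (e : Matrix (Fin m) (Fin m) R)
    (f : Matrix (Fin n) (Fin n) R) : (blk e f).map φ = blk (e.map φ) (f.map φ) := by
  unfold blk
  rw [← Matrix.submatrix_map, Matrix.fromBlocks_map]
  simp

/-- The monoid homomorphism `V(φ) : [e] ↦ [φ(e)]`. -/
def V.map (φ : R →ₙ+* S) : V R →+ V S where
  toFun := Quotient.map (sa := Idem.setoid R) (sb := Idem.setoid S) (Idem.map φ)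
    (fun _ _ h => Eqv.map h φ)
  map_zero' := by
    apply V.mk_eq.2
    have : ((Idem.zero R).map φ).mat = 0 := by
      ext i; exact i.elim0
    rw [this]
    exact Eqv.zero
  map_add' := by
    rintro ⟨a⟩ ⟨b⟩
    apply V.mk_eq.2
    have : ((a.add b).map φ).mat = ((a.map φ).add (b.map φ)).mat := blk_map φ a.mat b.mat
    rw [this]
    exact Eqv.refl (Idem.idem _)

end

/-! ### The monoid `V(A)` of a C*-algebra -/

section
variable {A : Type u} [NonUnitalRing A] [StarRing A] {ι κ μ ν : Type} [Fintype ι] [Fintype κ]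
  [Fintype μ] [Fintype ν]

/-- `p` is a projection: `p² = p = p*`. -/
def IsPr (p : Matrix ι ι A) : Prop := p * p = p ∧ p.conjTranspose = p

/-- Murray-von Neumann equivalence of projections: `p = v* v` and `q = v v*` for some rectangular
matrix `v`. -/
def SEqv (p : Matrix ι ι A) (q : Matrix κ κ A) : Prop :=
  ∃ v : Matrix κ ι A, v.conjTranspose * v = p ∧ v * v.conjTranspose = q

theorem SEqv.refl {p : Matrix ι ι A} (h : IsPr p) : SEqv p p :=
  ⟨p, by rw [h.2, h.1], by rw [h.2, h.1]⟩

theorem SEqv.symm {p : Matrix ι ι A} {q : Matrix κ κ A} (h : SEqv p q) : SEqv q p := by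
  obtain ⟨v, h1, h2⟩ := h
  exact ⟨v.conjTranspose, by rw [Matrix.conjTranspose_conjTranspose, h2],
    by rw [Matrix.conjTranspose_conjTranspose, h1]⟩

theorem SEqv.trans {p : Matrix ι ι A} {q : Matrix κ κ A} {r : Matrix μ μ A} (hp : IsPr p)
    (hr : IsPr r) (h : SEqv p q) (h' : SEqv q r) : SEqv p r := by
  obtain ⟨v, h1, h2⟩ := h
  obtain ⟨w, h3, h4⟩ := h'
  refine ⟨w * v, ?_, ?_⟩
  · rw [Matrix.conjTranspose_mul, Matrix.mul_assoc, ← Matrix.mul_assoc _ w, h3, ← h2,
      Matrix.mul_assoc, ← Matrix.mul_assoc, h1, hp.1]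
  · rw [Matrix.conjTranspose_mul, Matrix.mul_assoc, ← Matrix.mul_assoc v, h2, ← h3,
      Matrix.mul_assoc, ← Matrix.mul_assoc, h4, hr.1]

theorem SEqv.reindex {p : Matrix ι ι A} (hp : IsPr p) (σ : ι ≃ κ) :
    SEqv p (p.submatrix σ.symm σ.symm) := by
  refine ⟨p.submatrix σ.symm id, ?_, ?_⟩
  · rw [Matrix.conjTranspose_submatrix, hp.2, Matrix.submatrix_mul_equiv, hp.1]
    rfl
  · rw [Matrix.conjTranspose_submatrix, hp.2]
    have h := Matrix.submatrix_mul_equiv p p σ.symm (Equiv.refl ι) σ.symm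
    rw [hp.1] at h
    exact h

theorem SEqv.blocks {p : Matrix ι ι A} {q : Matrix κ κ A} {p' : Matrix μ μ A}
    {q' : Matrix ν ν A} (h : SEqv p q) (h' : SEqv p' q') :
    SEqv (Matrix.fromBlocks p 0 0 p') (Matrix.fromBlocks q 0 0 q') := by
  obtain ⟨x, h1, h2⟩ := h
  obtain ⟨x', h1', h2'⟩ := h'
  refine ⟨Matrix.fromBlocks x 0 0 x', ?_, ?_⟩
  · rw [Matrix.fromBlocks_conjTranspose, Matrix.fromBlocks_multiply]
    simp [h1, h1']
  · rw [Matrix.fromBlocks_conjTranspose, Matrix.fromBlocks_multiply]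
    simp [h2, h2']

theorem SEqv.zero : SEqv (0 : Matrix ι ι A) (0 : Matrix κ κ A) :=
  ⟨0, by simp, by simp⟩

theorem IsPr.zero : IsPr (0 : Matrix ι ι A) := ⟨by simp, by simp⟩

theorem SEqv.stab {p : Matrix ι ι A} (hp : IsPr p) :
    SEqv (Matrix.fromBlocks p 0 0 (0 : Matrix κ κ A)) p := by
  refine ⟨Matrix.fromCols p 0, ?_, ?_⟩
  · rw [Matrix.conjTranspose_fromCols_eq_fromRows_conjTranspose, rowcol, hp.2]
    simp [hp.1]
  · rw [Matrix.conjTranspose_fromCols_eq_fromRows_conjTranspose, colrow, hp.2]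
    simp [hp.1]

theorem IsPr.blocks {p : Matrix ι ι A} {q : Matrix κ κ A} (hp : IsPr p) (hq : IsPr q) :
    IsPr (Matrix.fromBlocks p 0 0 q) := by
  refine ⟨idem_blocks hp.1 hq.1, ?_⟩
  rw [Matrix.fromBlocks_conjTranspose, hp.2, hq.2]
  simp

theorem IsPr.sub {p : Matrix ι ι A} (hp : IsPr p) (σ : κ ≃ ι) : IsPr (p.submatrix σ σ) := by
  refine ⟨idem_sub hp.1 σ, ?_⟩
  rw [Matrix.conjTranspose_submatrix, hp.2]

theorem IsPr.blk {m n : ℕ} {p : Matrix (Fin m) (Fin m) A} {q : Matrix (Fin n) (Fin n) A}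
    (hp : IsPr p) (hq : IsPr q) : IsPr (blk p q) :=
  (hp.blocks hq).sub _

theorem SEqv.blk {m n : ℕ} {p : Matrix (Fin m) (Fin m) A} {q : Matrix (Fin n) (Fin n) A}
    (hp : IsPr p) (hq : IsPr q) : SEqv (Matrix.fromBlocks p 0 0 q) (LD.blk p q) :=
  SEqv.reindex (hp.blocks hq) finSumFinEquiv

end

/-- A projection in a matrix algebra `M_n(A)`. -/
structure Proj (A : Type u) [NonUnitalRing A] [StarRing A] where
  size : ℕ
  mat : Matrix (Fin size) (Fin size) A
  isPr : IsPr mat

section
variable {A : Type u} [NonUnitalRing A] [StarRing A]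

/-- Murray-von Neumann equivalence of projections as a setoid. -/
def Proj.setoid (A : Type u) [NonUnitalRing A] [StarRing A] : Setoid (Proj A) where
  r e f := SEqv e.mat f.mat
  iseqv :=
    { refl := fun e => SEqv.refl e.isPr
      symm := fun h => h.symm
      trans := fun {e _ g} h h' => SEqv.trans e.isPr g.isPr h h' }

/-- The set `V(A)` of Murray-von Neumann equivalence classes of projections in matrix algebras. -/
def VStar (A : Type u) [NonUnitalRing A] [StarRing A] : Type u := Quotient (Proj.setoid A)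

/-- The class `[p]` in `V(A)`. -/
def VStar.mk (p : Proj A) : VStar A := Quotient.mk (Proj.setoid A) p

/-- The block diagonal sum of projections. -/
def Proj.add (e f : Proj A) : Proj A := ⟨e.size + f.size, blk e.mat f.mat, e.isPr.blk f.isPr⟩

/-- The projection of size zero. -/
def Proj.zero (A : Type u) [NonUnitalRing A] [StarRing A] : Proj A := ⟨0, 0, IsPr.zero⟩

theorem Proj.add_congr {e e' f f' : Proj A} (h : SEqv e.mat e'.mat) (h' : SEqv f.mat f'.mat) :
    SEqv (e.add f).mat (e'.add f').mat := by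
  have h1 := SEqv.blk e.isPr f.isPr
  have h2 := SEqv.blk e'.isPr f'.isPr
  exact SEqv.trans (e.isPr.blk f.isPr) (e'.isPr.blk f'.isPr)
    (SEqv.trans (e.isPr.blk f.isPr) (e'.isPr.blocks f'.isPr) h1.symm (h.blocks h')) h2

theorem Proj.add_zero_eq (e : Proj A) : SEqv (e.add (Proj.zero A)).mat e.mat := by
  have h1 := SEqv.blk e.isPr (Proj.zero A).isPr
  exact SEqv.trans (e.isPr.blk (Proj.zero A).isPr) e.isPr h1.symm (SEqv.stab e.isPr)

theorem Proj.add_comm_eq (e f : Proj A) : SEqv (e.add f).mat (f.add e).mat := by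
  have h1 := SEqv.blk e.isPr f.isPr
  have h2 := SEqv.blk f.isPr e.isPr
  have h3 : SEqv (Matrix.fromBlocks e.mat 0 0 f.mat) (Matrix.fromBlocks f.mat 0 0 e.mat) := by
    have := SEqv.reindex (e.isPr.blocks f.isPr) (Equiv.sumComm (Fin e.size) (Fin f.size))
    have h4 : (Matrix.fromBlocks e.mat 0 0 f.mat).submatrix
        (Equiv.sumComm (Fin e.size) (Fin f.size)).symm
        (Equiv.sumComm (Fin e.size) (Fin f.size)).symm = Matrix.fromBlocks f.mat 0 0 e.mat := by
      ext (i | i) (j | j) <;> rfl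
    rwa [h4] at this
  exact SEqv.trans (e.isPr.blk f.isPr) (f.isPr.blk e.isPr)
    (SEqv.trans (e.isPr.blk f.isPr) (f.isPr.blocks e.isPr) h1.symm h3) h2

theorem Proj.add_assoc_eq (e f g : Proj A) :
    SEqv ((e.add f).add g).mat (e.add (f.add g)).mat := by
  have h1 := SEqv.blk (e.add f).isPr g.isPr
  have h2 := SEqv.blk e.isPr (f.add g).isPr
  have h3 := (SEqv.blk e.isPr f.isPr).blocks (SEqv.refl g.isPr)
  have h4 := (SEqv.refl e.isPr).blocks (SEqv.blk f.isPr g.isPr)
  have hl := (e.isPr.blocks f.isPr).blocks g.isPr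
  have hr := e.isPr.blocks (f.isPr.blocks g.isPr)
  have h5 : SEqv (Matrix.fromBlocks (Matrix.fromBlocks e.mat 0 0 f.mat) 0 0 g.mat)
      (Matrix.fromBlocks e.mat 0 0 (Matrix.fromBlocks f.mat 0 0 g.mat)) := by
    have := SEqv.reindex hl (Equiv.sumAssoc (Fin e.size) (Fin f.size) (Fin g.size))
    have h6 : (Matrix.fromBlocks (Matrix.fromBlocks e.mat 0 0 f.mat) 0 0 g.mat).submatrix
        (Equiv.sumAssoc (Fin e.size) (Fin f.size) (Fin g.size)).symm
        (Equiv.sumAssoc (Fin e.size) (Fin f.size) (Fin g.size)).symm =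
        Matrix.fromBlocks e.mat 0 0 (Matrix.fromBlocks f.mat 0 0 g.mat) := by
      ext (i | i | i) (j | j | j) <;> rfl
    rwa [h6] at this
  have i1 := (e.add f).isPr.blk g.isPr
  have i2 := e.isPr.blk (f.add g).isPr
  have j1 := (e.add f).isPr.blocks g.isPr
  have j2 := e.isPr.blocks (f.add g).isPr
  exact SEqv.trans i1 i2
    (SEqv.trans i1 j2 (SEqv.trans i1 hr (SEqv.trans i1 hl h1.symm h3.symm) h5) h4) h2

instance VStar.instAdd (A : Type u) [NonUnitalRing A] [StarRing A] : Add (VStar A) :=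
  ⟨Quotient.map₂ Proj.add (fun _ _ h _ _ h' => Proj.add_congr h h')⟩

instance VStar.instZero (A : Type u) [NonUnitalRing A] [StarRing A] : Zero (VStar A) :=
  ⟨VStar.mk (Proj.zero A)⟩

/-- The commutative monoid `V(A)`: addition is the block diagonal sum. -/
instance VStar.monoid (A : Type u) [NonUnitalRing A] [StarRing A] : AddCommMonoid (VStar A) where
  add_assoc := by
    rintro ⟨a⟩ ⟨b⟩ ⟨c⟩
    exact Quotient.sound (s := Proj.setoid A) (Proj.add_assoc_eq a b c)
  add_comm := by
    rintro ⟨a⟩ ⟨b⟩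
    exact Quotient.sound (s := Proj.setoid A) (Proj.add_comm_eq a b)
  add_zero := by
    rintro ⟨a⟩
    exact Quotient.sound (s := Proj.setoid A) (Proj.add_zero_eq a)
  zero_add := by
    rintro ⟨a⟩
    exact Quotient.sound (s := Proj.setoid A)
      (SEqv.trans (Proj.isPr _) a.isPr (Proj.add_comm_eq _ a) (Proj.add_zero_eq a))
  nsmul := nsmulRec

theorem VStar.mk_eq {e f : Proj A} : VStar.mk e = VStar.mk f ↔ SEqv e.mat f.mat :=
  Quotient.eq (r := Proj.setoid A)

theorem VStar.add_mk (e f : Proj A) : VStar.mk e + VStar.mk f = VStar.mk (e.add f) := rfl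

theorem VStar.zero_mk : (0 : VStar A) = VStar.mk (Proj.zero A) := rfl

end

section
variable {A : Type u} {B : Type v} [NonUnitalCStarAlgebra A] [NonUnitalCStarAlgebra B]

theorem map_conj {ι κ : Type} (φ : A →⋆ₙₐ[ℂ] B) (x : Matrix ι κ A) :
    (x.map φ).conjTranspose = x.conjTranspose.map φ := by
  ext i j
  simp [Matrix.conjTranspose_apply, map_star]

theorem map_mulm {ι κ μ : Type} [Fintype κ] (φ : A →⋆ₙₐ[ℂ] B) (x : Matrix ι κ A)
    (y : Matrix κ μ A) : (x * y).map φ = x.map φ * y.map φ := by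
  ext i j
  simp [Matrix.mul_apply, map_sum, map_mul]

theorem IsPr.map {ι : Type} [Fintype ι] {p : Matrix ι ι A} (hp : IsPr p) (φ : A →⋆ₙₐ[ℂ] B) :
    IsPr (p.map φ) :=
  ⟨by rw [← map_mulm, hp.1], by rw [map_conj, hp.2]⟩

/-- The image of a projection under a `*`-homomorphism (entrywise). -/
def Proj.map (φ : A →⋆ₙₐ[ℂ] B) (e : Proj A) : Proj B := ⟨e.size, e.mat.map φ, e.isPr.map φ⟩

theorem SEqv.map {ι κ : Type} [Fintype ι] [Fintype κ] {e : Matrix ι ι A} {f : Matrix κ κ A}
    (h : SEqv e f) (φ : A →⋆ₙₐ[ℂ] B) : SEqv (e.map φ) (f.map φ) := by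
  obtain ⟨x, h1, h2⟩ := h
  refine ⟨x.map φ, ?_, ?_⟩
  · rw [map_conj, ← map_mulm, h1]
  · rw [map_conj, ← map_mulm, h2]

/-- The monoid homomorphism `V(φ) : [p] ↦ [φ(p)]`. -/
def VStar.map (φ : A →⋆ₙₐ[ℂ] B) : VStar A →+ VStar B where
  toFun := Quotient.map (sa := Proj.setoid A) (sb := Proj.setoid B) (Proj.map φ)
    (fun _ _ h => SEqv.map h φ)
  map_zero' := by
    apply VStar.mk_eq.2
    have : ((Proj.zero A).map φ).mat = 0 := by
      ext i; exact i.elim0
    rw [this]
    exact SEqv.zero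
  map_add' := by
    rintro ⟨a⟩ ⟨b⟩
    apply VStar.mk_eq.2
    have : ((a.add b).map φ).mat = ((a.map φ).add (b.map φ)).mat := by
      show (blk a.mat b.mat).map φ = blk (a.mat.map φ) (b.mat.map φ)
      unfold blk
      rw [← Matrix.submatrix_map, Matrix.fromBlocks_map]
      simp
    rw [this]
    exact SEqv.refl (Proj.isPr _)

end

/-! ### The categories `Reg` and `RR₀` and the functors `V` -/

/-- A von Neumann regular ring, not necessarily with unit. -/
structure RegRing where
  carrier : Type u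
  str : NonUnitalRing carrier
  regular : ∀ x : carrier, ∃ y : carrier, x * y * x = x

instance (R : RegRing.{u}) : NonUnitalRing R.carrier := R.str

/-- The category of von Neumann regular rings; the morphisms are the ring homomorphisms (nothing
about units). -/
instance RegRing.cat : Category RegRing.{u} where
  Hom R S := R.carrier →ₙ+* S.carrier
  id R := NonUnitalRingHom.id R.carrier
  comp f g := NonUnitalRingHom.comp g f
  id_comp _ := rfl
  comp_id _ := rfl
  assoc _ _ _ := rfl

/-- The functor `V` from von Neumann regular rings to commutative monoids. -/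
def VReg : RegRing.{u} ⥤ AddCommMonCat.{u} where
  obj R := AddCommMonCat.of (V R.carrier)
  map φ := AddCommMonCat.ofHom (V.map φ)
  map_id R := by
    apply AddCommMonCat.hom_ext
    apply AddMonoidHom.ext
    rintro ⟨a⟩
    rfl
  map_comp φ ψ := by
    apply AddCommMonCat.hom_ext
    apply AddMonoidHom.ext
    rintro ⟨a⟩
    rfl

/-- A C*-algebra has real rank zero: every self-adjoint element of its unitization is a norm limit
of self-adjoint elements with finite spectrum. -/
def RealRankZero (A : Type u) [NonUnitalCStarAlgebra A] : Prop :=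
  ∀ x : Unitization ℂ A, IsSelfAdjoint x → ∀ ε : ℝ, 0 < ε →
    ∃ y : Unitization ℂ A, IsSelfAdjoint y ∧ (spectrum ℂ y).Finite ∧ ‖x - y‖ < ε

/-- A C*-algebra of real rank zero, not necessarily with unit. -/
structure RR0 where
  carrier : Type u
  str : NonUnitalCStarAlgebra carrier
  rr0 : RealRankZero carrier

instance (A : RR0.{u}) : NonUnitalCStarAlgebra A.carrier := A.str

/-- The category of C*-algebras of real rank zero; the morphisms are the `*`-homomorphisms. -/
instance RR0.cat : Category RR0.{u} where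
  Hom A B := A.carrier →⋆ₙₐ[ℂ] B.carrier
  id A := NonUnitalStarAlgHom.id ℂ A.carrier
  comp f g := NonUnitalStarAlgHom.comp g f
  id_comp _ := rfl
  comp_id _ := rfl
  assoc _ _ _ := rfl

/-- The functor `V` from C*-algebras of real rank zero to commutative monoids. -/
def VRR0 : RR0.{u} ⥤ AddCommMonCat.{u} where
  obj A := AddCommMonCat.of (VStar A.carrier)
  map φ := AddCommMonCat.ofHom (VStar.map φ)
  map_id A := by
    apply AddCommMonCat.hom_ext
    apply AddMonoidHom.ext
    rintro ⟨a⟩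
    rfl
  map_comp φ ψ := by
    apply AddCommMonCat.hom_ext
    apply AddMonoidHom.ext
    rintro ⟨a⟩
    rfl

/-- A lifting of the diagram of commutative monoids `M` with respect to the functor `V` defined on
the category `C`: a functor `F` to `C` and a natural isomorphism `V ∘ F ≅ M`. -/
structure Lifting {P : Type} [Preorder P] {C : Type v} [Category.{u} C]
    (V : C ⥤ AddCommMonCat.{u}) (M : P ⥤ AddCommMonCat.{0}) where
  F : P ⥤ C
  iso : ∀ p : P, V.obj (F.obj p) ≃+ M.obj p
  natural : ∀ {p q : P} (f : p ⟶ q) (x : V.obj (F.obj p)),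
    iso q (V.map (F.map f) x) = M.map f (iso p x)

/-- All values of the diagram are simplicial monoids: isomorphic to some `ℕ^n`. -/
def Simplicial {P : Type} [Preorder P] (M : P ⥤ AddCommMonCat.{0}) : Prop :=
  ∀ p : P, ∃ n : ℕ, Nonempty (M.obj p ≃+ (Fin n → ℕ))

/-- A morphism of `Reg` as a ring homomorphism. -/
def RegRing.hom {R S : RegRing.{u}} (f : R ⟶ S) : R.carrier →ₙ+* S.carrier := f

/-- All rings of a functor to `Reg` have identity elements, and these are preserved by all maps. -/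
def Unital {P : Type} [Preorder P] (F : P ⥤ RegRing.{u}) : Prop :=
  ∃ one : ∀ p : P, (F.obj p).carrier,
    (∀ (p : P) (x : (F.obj p).carrier), one p * x = x ∧ x * one p = x) ∧
    ∀ {p q : P} (f : p ⟶ q), RegRing.hom (F.map f) (one p) = one q

end Pool.Agent.W408.LD
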