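import Pool.Agent.W408.LD.Defs

set_option autoImplicit false

/-!
The monoids `V` of matrix rings over fields and of finite products.
-/

namespace Pool.Agent.W408.LD

open CategoryTheory

universe u v

/-- ring isomorphisms induce isomorphisms of `V` -/
def V.congr {R : Type u} {S : Type v} [NonUnitalRing R] [NonUnitalRing S] (φ : R ≃+* S) :
    V R ≃+ V S :=
  AddMonoidHom.toAddEquiv (V.map (φ : R →ₙ+* S)) (V.map (φ.symm : S →ₙ+* R))
    (by
      apply AddMonoidHom.ext
      rintro ⟨a⟩
      show V.mk (Idem.map _ (Idem.map _ a)) = V.mk a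
      congr 1
      obtain ⟨n, e, he⟩ := a
      unfold Idem.map
      congr 1
      ext i j
      simp)
    (by
      apply AddMonoidHom.ext
      rintro ⟨a⟩
      show V.mk (Idem.map _ (Idem.map _ a)) = V.mk a
      congr 1
      obtain ⟨n, e, he⟩ := a
      unfold Idem.map
      congr 1
      ext i j
      simp)

/-! ### products -/

/-- The upper-left corner embedding of `M_n(R)` into `M_N(R)` (used for `n ≤ N`). -/
def corner {R : Type u} [Zero R] {n : ℕ} (N : ℕ) (e : Matrix (Fin n) (Fin n) R) :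
    Matrix (Fin N) (Fin N) R :=
  fun i j => if h : i.1 < n ∧ j.1 < n then e ⟨i.1, h.1⟩ ⟨j.1, h.2⟩ else 0

section
variable {R : Type u} [NonUnitalRing R]

theorem corner_eqv {n N : ℕ} (h : n ≤ N) {e : Matrix (Fin n) (Fin n) R} (he : e * e = e) :
    Eqv e (corner N e) := by
  obtain ⟨d, rfl⟩ := Nat.exists_eq_add_of_le h
  refine ⟨fun i j => if h : j.1 < n then e i ⟨j.1, h⟩ else 0,
    fun i j => if h : i.1 < n then e ⟨i.1, h⟩ j else 0, ?_, ?_⟩
  · ext i j
    rw [Matrix.mul_apply, Fin.sum_univ_add]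
    conv_rhs => rw [← he, Matrix.mul_apply]
    simp
  · ext i j
    rw [Matrix.mul_apply, corner]
    by_cases hi : i.1 < n
    · by_cases hj : j.1 < n
      · rw [dif_pos ⟨hi, hj⟩]
        simp only [dif_pos hi, dif_pos hj]
        conv_rhs => rw [← he, Matrix.mul_apply]
      · rw [dif_neg (fun h => hj h.2)]
        simp [hj]
    · rw [dif_neg (fun h => hi h.1)]
      simp [hi]

theorem corner_idem {n N : ℕ} (h : n ≤ N) {e : Matrix (Fin n) (Fin n) R} (he : e * e = e) :
    corner N e * corner N e = corner N e := by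
  obtain ⟨d, rfl⟩ := Nat.exists_eq_add_of_le h
  ext i j
  rw [Matrix.mul_apply, Fin.sum_univ_add]
  unfold corner
  by_cases hi : i.1 < n
  · by_cases hj : j.1 < n
    · rw [dif_pos ⟨hi, hj⟩]
      conv_rhs => rw [← he, Matrix.mul_apply]
      simp [hi, hj]
    · simp [hj]
  · simp [hi]

end

section
variable {ι : Type} [Fintype ι] {R : ι → Type u} [∀ i, NonUnitalRing (R i)]

/-- evaluation at `i` -/
def evalHom (R : ι → Type u) [∀ i, NonUnitalRing (R i)] (i : ι) : (∀ i, R i) →ₙ+* R i where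
  toFun x := x i
  map_mul' _ _ := rfl
  map_zero' := rfl
  map_add' _ _ := rfl

/-- the comparison map for products -/
def V.toPi (R : ι → Type u) [∀ i, NonUnitalRing (R i)] : V (∀ i, R i) →+ ∀ i, V (R i) where
  toFun x i := V.map (evalHom R i) x
  map_zero' := by
    funext i
    exact map_zero _
  map_add' x y := by
    funext i
    exact map_add _ _ _

theorem V.toPi_injective : Function.Injective (V.toPi R) := by
  rintro ⟨a⟩ ⟨b⟩ h
  apply V.mk_eq.2
  have h1 : ∀ i, Eqv (a.mat.map (evalHom R i)) (b.mat.map (evalHom R i)) := fun i =>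
    V.mk_eq.1 (congrFun h i)
  choose x y hx hy using h1
  refine ⟨fun r s i => x i r s, fun r s i => y i r s, ?_, ?_⟩
  · ext r s i
    have := congrFun (congrFun (hx i) r) s
    rw [Matrix.mul_apply] at this ⊢
    rw [Finset.sum_apply]
    exact this
  · ext r s i
    have := congrFun (congrFun (hy i) r) s
    rw [Matrix.mul_apply] at this ⊢
    rw [Finset.sum_apply]
    exact this

theorem V.toPi_surjective : Function.Surjective (V.toPi R) := by
  intro z
  choose e he using fun i => Quotient.exists_rep (z i)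
  obtain ⟨N, hN⟩ : ∃ N : ℕ, ∀ i, (e i).size ≤ N :=
    ⟨Finset.univ.sup fun i => (e i).size, fun i =>
      Finset.le_sup (f := fun i => (e i).size) (Finset.mem_univ i)⟩
  refine ⟨V.mk ⟨N, fun r s i => corner N (e i).mat r s, ?_⟩, ?_⟩
  · ext r s i
    have := congrFun (congrFun (corner_idem (hN i) (e i).idem) r) s
    rw [Matrix.mul_apply] at this ⊢
    rw [Finset.sum_apply]
    exact this
  · funext i
    rw [← he i]
    apply V.mk_eq.2
    exact (corner_eqv (hN i) (e i).idem).symm

/-- `V` of a finite product -/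
noncomputable def V.pi (R : ι → Type u) [∀ i, NonUnitalRing (R i)] :
    V (∀ i, R i) ≃+ ∀ i, V (R i) :=
  AddEquiv.ofBijective (V.toPi R) ⟨V.toPi_injective, V.toPi_surjective⟩

end

/-! ### matrix rings over fields -/

theorem factor {K : Type u} [Field K] {ι : Type} [Fintype ι] [DecidableEq ι] (e : Matrix ι ι K)
    (he : e * e = e) : ∃ (r : ℕ) (A : Matrix ι (Fin r) K) (B : Matrix (Fin r) ι K),
      A * B = e ∧ B * A = 1 := by
  obtain ⟨f, hf⟩ : ∃ f : (ι → K) →ₗ[K] (ι → K), f = Matrix.toLin' e := ⟨_, rfl⟩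
  have hff : f ∘ₗ f = f := by
    rw [hf, ← Matrix.toLin'_mul, he]
  let b := Module.finBasis K (LinearMap.range f)
  refine ⟨_, LinearMap.toMatrix b (Pi.basisFun K ι) (LinearMap.range f).subtype,
    LinearMap.toMatrix (Pi.basisFun K ι) b f.rangeRestrict, ?_, ?_⟩
  · rw [← LinearMap.toMatrix_comp]
    have : (LinearMap.range f).subtype ∘ₗ f.rangeRestrict = f := by
      ext x; rfl
    rw [this, hf, ← LinearMap.toMatrix'_toLin' e]
    simp [LinearMap.toMatrix_eq_toMatrix']
  · rw [← LinearMap.toMatrix_comp]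
    have : f.rangeRestrict ∘ₗ (LinearMap.range f).subtype = LinearMap.id := by
      apply LinearMap.ext
      rintro ⟨_, x, rfl⟩
      apply Subtype.ext
      exact LinearMap.congr_fun hff x
    rw [this, LinearMap.toMatrix_id]

section
variable {K : Type u} [Field K] {n : ℕ}

/-- the matrix unit -/
def E0 (K : Type u) [Field K] (n : ℕ) : Matrix (Fin (n + 1)) (Fin (n + 1)) K :=
  fun i j => if i = 0 ∧ j = 0 then 1 else 0

theorem E0_mul (x : Matrix (Fin (n + 1)) (Fin (n + 1)) K) (i j : Fin (n + 1)) :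
    (E0 K n * x) i j = if i = 0 then x 0 j else 0 := by
  rw [Matrix.mul_apply]
  by_cases h : i = 0
  · simp [E0, h]
  · simp [E0, h]

theorem mul_E0 (x : Matrix (Fin (n + 1)) (Fin (n + 1)) K) (i j : Fin (n + 1)) :
    (x * E0 K n) i j = if j = 0 then x i 0 else 0 := by
  rw [Matrix.mul_apply]
  by_cases h : j = 0
  · simp [E0, h]
  · simp [E0, h]

theorem E0_idem : E0 K n * E0 K n = E0 K n := by
  ext i j
  rw [E0_mul]
  by_cases h : i = 0 <;> simp [E0, h]

/-- `r` copies of the matrix unit -/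
def Dr (K : Type u) [Field K] (n r : ℕ) :
    Matrix (Fin r) (Fin r) (Matrix (Fin (n + 1)) (Fin (n + 1)) K) :=
  fun a b => if a = b then E0 K n else 0

theorem Dr_mul {r s : ℕ} (X : Matrix (Fin r) (Fin s) (Matrix (Fin (n + 1)) (Fin (n + 1)) K))
    (a : Fin r) (b : Fin s) : (Dr K n r * X) a b = E0 K n * X a b := by
  rw [Matrix.mul_apply]
  simp [Dr]

theorem mul_Dr {r s : ℕ} (X : Matrix (Fin r) (Fin s) (Matrix (Fin (n + 1)) (Fin (n + 1)) K))
    (a : Fin r) (b : Fin s) : (X * Dr K n s) a b = X a b * E0 K n := by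
  rw [Matrix.mul_apply]
  simp [Dr]

theorem Dr_idem {r : ℕ} : Dr K n r * Dr K n r = Dr K n r := by
  ext1 a b
  rw [Dr_mul]
  unfold Dr
  split_ifs
  · exact E0_idem
  · exact mul_zero _

theorem Dr_class (r : ℕ) : V.mk ⟨r, Dr K n r, Dr_idem⟩ = r • V.mk ⟨1, Dr K n 1, Dr_idem⟩ := by
  induction r with
  | zero =>
    rw [zero_smul]
    apply V.mk_eq.2
    have : Dr K n 0 = 0 := by ext1 i; exact i.elim0
    show Eqv (Dr K n 0) (Idem.zero _).mat
    rw [this]
    exact Eqv.zero
  | succ r ih =>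
    rw [succ_nsmul, ← ih]
    show V.mk _ = V.mk (Idem.add _ _)
    congr 1
    unfold Idem.add
    have h : Dr K n (r + 1) = blk (Dr K n r) (Dr K n 1) := by
      ext1 a b
      unfold blk
      rw [Matrix.submatrix_apply]
      refine Fin.addCases (fun a => ?_) (fun a => ?_) a <;>
      refine Fin.addCases (fun b => ?_) (fun b => ?_) b
      · simp [Dr, Fin.ext_iff]
      · have : a.1 ≠ r := by have := a.2; omega
        simp [Dr, Fin.ext_iff, this]
      · have : r ≠ b.1 := by have := b.2; omega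
        simp [Dr, Fin.ext_iff, this]
      · have : a = b := Subsingleton.elim _ _
        simp [Dr, this]
    congr 1

theorem Dr_surj (k : ℕ) (e : Matrix (Fin k) (Fin k) (Matrix (Fin (n + 1)) (Fin (n + 1)) K))
    (he : e * e = e) : ∃ r, Eqv e (Dr K n r) := by
  have hc : Matrix.comp _ _ _ _ K e * Matrix.comp _ _ _ _ K e = Matrix.comp _ _ _ _ K e := by
    ext ⟨a, i⟩ ⟨b, j⟩
    rw [Matrix.mul_apply, Fintype.sum_prod_type]
    have := congrFun (congrFun (congrFun (congrFun he a) b) i) j
    rw [Matrix.mul_apply, Matrix.sum_apply] at this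
    simp only [Matrix.mul_apply] at this
    exact this
  obtain ⟨r, A, B, h1, h2⟩ := factor _ hc
  refine ⟨r, Matrix.of fun a b => Matrix.of fun i j => if j = 0 then A (a, i) b else 0,
    Matrix.of fun b a => Matrix.of fun i j => if i = 0 then B b (a, j) else 0, ?_, ?_⟩
  · ext a a' i j
    rw [Matrix.mul_apply, Matrix.sum_apply]
    have := congrFun (congrFun h1 (a, i)) (a', j)
    rw [Matrix.mul_apply] at this
    simp only [Matrix.mul_apply, Matrix.of_apply]
    simp
    exact this
  · ext b b' i j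
    rw [Matrix.mul_apply, Matrix.sum_apply]
    have := congrFun (congrFun h2 b) b'
    rw [Matrix.mul_apply, Fintype.sum_prod_type, Matrix.one_apply] at this
    simp only [Matrix.mul_apply, Matrix.of_apply]
    by_cases hi : i = 0
    · by_cases hj : j = 0
      · simp only [hi, hj, if_true]
        rw [this]
        by_cases hb : b = b' <;> simp [Dr, E0, hb]
      · by_cases hb : b = b' <;> simp [Dr, E0, hb, hj]
    · by_cases hb : b = b' <;> simp [Dr, E0, hb, hi]

theorem Dr_inj_le {r s : ℕ} (h : Eqv (Dr K n r) (Dr K n s)) : r ≤ s := by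
  obtain ⟨X, Y, h1, h2⟩ := h
  have h3 : (Dr K n r * X * Dr K n s) * (Dr K n s * Y * Dr K n r) = Dr K n r := by
    calc (Dr K n r * X * Dr K n s) * (Dr K n s * Y * Dr K n r) =
        Dr K n r * (X * (Dr K n s * Dr K n s) * Y) * Dr K n r := by simp only [Matrix.mul_assoc]
      _ = Dr K n r * ((X * Y) * (X * Y)) * Dr K n r := by
          rw [Dr_idem, ← h2]; simp only [Matrix.mul_assoc]
      _ = Dr K n r := by rw [h1, Dr_idem, Dr_idem, Dr_idem]
  have h4 : (Matrix.of fun a b => X a b 0 0 : Matrix (Fin r) (Fin s) K) *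
      (Matrix.of fun a b => Y a b 0 0 : Matrix (Fin s) (Fin r) K) = 1 := by
    ext a b
    have := congrFun (congrFun (congrFun (congrFun h3 a) b) 0) 0
    rw [Matrix.mul_apply, Matrix.sum_apply] at this
    simp only [mul_Dr, Dr_mul] at this
    rw [Matrix.mul_apply]
    have h5 : ∀ c : Fin s, (E0 K n * X a c * E0 K n * (E0 K n * Y c b * E0 K n)) 0 0 =
        X a c 0 0 * Y c b 0 0 := by
      intro c
      rw [Matrix.mul_apply]
      simp only [mul_E0, E0_mul]
      rw [Finset.sum_eq_single 0]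
      · simp
      · intro i _ hi
        simp [hi]
      · simp
    simp only [h5] at this
    show ∑ c, X a c 0 0 * Y c b 0 0 = _
    rw [this, Matrix.one_apply]
    unfold Dr
    by_cases hab : a = b
    · rw [if_pos hab, if_pos hab]; simp [E0]
    · rw [if_neg hab, if_neg hab]; rfl
  have h5 := Matrix.rank_mul_le_left (Matrix.of fun a b => X a b 0 0 : Matrix (Fin r) (Fin s) K)
    (Matrix.of fun a b => Y a b 0 0 : Matrix (Fin s) (Fin r) K)
  rw [h4, Matrix.rank_one, Fintype.card_fin] at h5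
  exact h5.trans (Matrix.rank_le_width _)

/-- `V` of a matrix ring over a field is `ℕ`. -/
theorem V.matrix (K : Type u) [Field K] (n : ℕ) :
    Nonempty (V (Matrix (Fin (n + 1)) (Fin (n + 1)) K) ≃+ ℕ) := by
  refine ⟨(AddEquiv.ofBijective (multiplesHom _ (V.mk ⟨1, Dr K n 1, Dr_idem⟩)) ⟨?_, ?_⟩).symm⟩
  · intro r s h
    rw [multiplesHom_apply, multiplesHom_apply, ← Dr_class, ← Dr_class] at h
    have h' := V.mk_eq.1 h
    exact le_antisymm (Dr_inj_le h') (Dr_inj_le h'.symm)
  · rintro ⟨⟨k, e, he⟩⟩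
    obtain ⟨r, hr⟩ := Dr_surj k e he
    refine ⟨r, ?_⟩
    rw [multiplesHom_apply, ← Dr_class]
    exact V.mk_eq.2 hr.symm

theorem V.field (K : Type u) [Field K] : Nonempty (V K ≃+ ℕ) := by
  obtain ⟨e⟩ := V.matrix K 0
  exact ⟨(V.congr (Matrix.uniqueRingEquiv (m := Fin 1) (A := K)).symm).trans e⟩

end

/-- `V` of a finite product of fields is simplicial -/
theorem V.fields {ι : Type} [Finite ι] (K : ι → Type u) [∀ i, Field (K i)] :
    ∃ n : ℕ, Nonempty (V (∀ i, K i) ≃+ (Fin n → ℕ)) := by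
  classical
  have := Fintype.ofFinite ι
  have e : ∀ i, V (K i) ≃+ ℕ := fun i => (V.field (K i)).some
  exact ⟨Fintype.card ι, ⟨(V.pi K).trans ((AddEquiv.piCongrRight e).trans
    (AddEquiv.arrowCongr (Fintype.equivFin ι) (AddEquiv.refl ℕ)))⟩⟩

/-- `V` of a finite commutative reduced ring is simplicial -/
theorem V.artin (S : Type) [CommRing S] [Finite S] [IsReduced S] :
    ∃ n : ℕ, Nonempty (V S ≃+ (Fin n → ℕ)) := by
  have : IsArtinianRing S := inferInstance
  let _ : ∀ I : MaximalSpectrum S, Field (S ⧸ I.asIdeal) := fun I =>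
    haveI := I.isMaximal
    Ideal.Quotient.field _
  obtain ⟨n, ⟨e⟩⟩ := V.fields (fun I : MaximalSpectrum S => S ⧸ I.asIdeal)
  exact ⟨n, ⟨(V.congr (IsArtinianRing.equivPi S)).trans e⟩⟩

end Pool.Agent.W408.LD
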