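import Pool.Agent.W408.LD.R1

set_option autoImplicit false

/-!
The lattice of the Boolean subrings of `M_3(F_2)` together with `M_3(F_2)`, and the diagram of
the monoids `V` of these rings.
-/

namespace Pool.Agent.W408.LD

open CategoryTheory

/-- The ring `M_3(F_2)`. -/
abbrev Mat : Type := Matrix (Fin 3) (Fin 3) (ZMod 2)

/-- The subrings of `M_3(F_2)` all of whose elements are idempotent, and `M_3(F_2)` itself. -/
def P : Type := {S : Subring Mat // S = ⊤ ∨ ∀ x ∈ S, x * x = x}

instance : PartialOrder P :=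
  inferInstanceAs (PartialOrder {S : Subring Mat // S = ⊤ ∨ ∀ x ∈ S, x * x = x})

instance : InfSet P := ⟨fun s => ⟨sInf (Subtype.val '' s), by
  by_cases h : ∃ T ∈ s, ∀ x ∈ T.1, x * x = x
  · right
    obtain ⟨T, hT, h⟩ := h
    intro x hx
    exact h x ((Subring.mem_sInf.1 hx) T.1 ⟨T, hT, rfl⟩)
  · left
    push Not at h
    rw [eq_top_iff]
    intro x _
    rw [Subring.mem_sInf]
    rintro _ ⟨T, hT, rfl⟩
    obtain ⟨y, hy, hyy⟩ := h T hT
    rcases T.2 with h1 | h1
    · rw [h1]; trivial
    · exact absurd (h1 y hy) hyy⟩⟩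

instance : CompleteLattice P := completeLatticeOfInf P (by
  intro s
  constructor
  · intro T hT x hx
    exact (Subring.mem_sInf.1 hx) T.1 ⟨T, hT, rfl⟩
  · intro T hT x hx
    show x ∈ sInf (Subtype.val '' s)
    rw [Subring.mem_sInf]
    rintro _ ⟨T', hT', rfl⟩
    exact hT hT' hx)

instance : Finite (Subring Mat) :=
  Finite.of_injective (fun S => (S : Set Mat)) SetLike.coe_injective

instance : Finite P :=
  inferInstanceAs (Finite {S : Subring Mat // S = ⊤ ∨ ∀ x ∈ S, x * x = x})

theorem matrix_regular {K : Type} [Field K] {n : ℕ} (x : Matrix (Fin n) (Fin n) K) :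
    ∃ y : Matrix (Fin n) (Fin n) K, x * y * x = x := by
  obtain ⟨f, hf⟩ : ∃ f : (Fin n → K) →ₗ[K] (Fin n → K), f = Matrix.toLin' x := ⟨_, rfl⟩
  obtain ⟨s, hs⟩ := LinearMap.exists_rightInverse_of_surjective f.rangeRestrict
    (LinearMap.range_rangeRestrict f)
  obtain ⟨g, hg⟩ := LinearMap.exists_extend s
  refine ⟨LinearMap.toMatrix' g, ?_⟩
  apply Matrix.toLin'.injective
  rw [Matrix.toLin'_mul, Matrix.toLin'_mul, Matrix.toLin'_toMatrix', ← hf]
  apply LinearMap.ext
  intro v
  show f (g (f v)) = f v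
  have h1 : g (f v) = s (f.rangeRestrict v) := LinearMap.congr_fun hg (f.rangeRestrict v)
  rw [h1]
  exact congrArg Subtype.val (LinearMap.congr_fun hs (f.rangeRestrict v))

theorem P.regular (S : P) (x : S.1) : ∃ y : S.1, x * y * x = x := by
  rcases S.2 with h | h
  · obtain ⟨y, hy⟩ := matrix_regular x.1
    exact ⟨⟨y, by rw [h]; trivial⟩, Subtype.ext hy⟩
  · exact ⟨1, by rw [mul_one]; exact Subtype.ext (h x.1 x.2)⟩

/-- The members of `P` as regular rings. -/
def P.ring (S : P) : RegRing.{0} := ⟨S.1, inferInstance, P.regular S⟩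

/-- The functor of the inclusion maps. -/
def F : P ⥤ RegRing.{0} where
  obj := P.ring
  map {S T} f := ((Subring.inclusion (show S.1 ≤ T.1 from leOfHom f) : S.1 →+* T.1) : S.1 →ₙ+* T.1)
  map_id _ := rfl
  map_comp _ _ := rfl

/-- The diagram of monoids. -/
def M : P ⥤ AddCommMonCat.{0} := F ⋙ VReg

theorem F_unital : Unital F :=
  ⟨fun S => (1 : S.1), fun S x => ⟨one_mul (M := S.1) x, mul_one (M := S.1) x⟩, fun _ => rfl⟩

/-- The tautological lifting. -/
def liftF : Lifting VReg M where
  F := F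
  iso _ := AddEquiv.refl _
  natural _ _ := rfl

theorem simplicial_bool (S : Subring Mat) (h : ∀ x ∈ S, x * x = x) :
    ∃ n : ℕ, Nonempty (V S ≃+ (Fin n → ℕ)) := by
  let _ : BooleanRing S :=
    { (inferInstance : Ring S) with
      isIdempotentElem := fun x => Subtype.ext (h x.1 x.2) }
  have : IsReduced S := ⟨fun x hx => by
    obtain ⟨n, hn⟩ := hx
    have h1 : ∀ m : ℕ, x ^ (m + 1) = x := by
      intro m
      induction m with
      | zero => simp
      | succ m ih => rw [pow_succ, ih]; exact Subtype.ext (h x.1 x.2)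
    cases n with
    | zero =>
      rw [pow_zero] at hn
      calc x = x * 1 := (mul_one x).symm
        _ = 0 := by rw [hn, mul_zero]
    | succ n => rw [← h1 n, hn]⟩
  exact V.artin S

theorem M_simplicial : Simplicial M := by
  intro S
  rcases S.2 with h | h
  · obtain ⟨e⟩ := V.matrix (ZMod 2) 2
    have e1 : S.1 ≃+* Mat := (RingEquiv.subringCongr h).trans Subring.topEquiv
    exact ⟨1, ⟨((V.congr e1).trans e).trans (AddEquiv.funUnique (Fin 1) ℕ).symm⟩⟩
  · exact simplicial_bool S.1 h

end Pool.Agent.W408.LD
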