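import Pool.Agent.W408.LD.Defs
import Pool.Agent.H494R3.LD.C2

set_option autoImplicit false

/-!
Classes of projections in C*-algebras of real rank zero and of idempotents in rings.
-/

namespace Pool.Agent.W408.LD

open CategoryTheory

universe u v

/-- the matrix of size one with entry `p` -/
def s1 {R : Type u} (p : R) : Matrix (Fin 1) (Fin 1) R := Matrix.of fun _ _ => p

section ring
variable {R : Type u} [NonUnitalRing R]

theorem s1_mul (p q : R) : s1 p * s1 q = s1 (p * q) := by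
  ext i j
  rw [Matrix.mul_apply]
  simp [s1]

theorem s1_inj {p q : R} (h : s1 p = s1 q) : p = q := congrFun (congrFun h 0) 0

theorem s1_idem {p : R} (h : p * p = p) : s1 p * s1 p = s1 p := by
  rw [s1_mul, h]

/-- the class in `V(R)` of an idempotent of `R` -/
def cl {p : R} (h : p * p = p) : V R := V.mk ⟨1, s1 p, s1_idem h⟩

theorem cl_eq {p q : R} (hp : p * p = p) (hq : q * q = q) :
    cl hp = cl hq ↔ ∃ x y : R, x * y = p ∧ y * x = q := by
  constructor
  · intro h
    obtain ⟨x, y, h1, h2⟩ := V.mk_eq.1 h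
    have e1 : x = s1 (x 0 0) := by ext i j; rw [Subsingleton.elim i 0, Subsingleton.elim j 0]; rfl
    have e2 : y = s1 (y 0 0) := by ext i j; rw [Subsingleton.elim i 0, Subsingleton.elim j 0]; rfl
    refine ⟨x 0 0, y 0 0, ?_, ?_⟩
    · apply s1_inj
      rw [← s1_mul]
      rw [← e1, ← e2, h1]
    · apply s1_inj
      rw [← s1_mul]
      rw [← e1, ← e2, h2]
  · rintro ⟨x, y, h1, h2⟩
    apply V.mk_eq.2
    exact ⟨s1 x, s1 y, by rw [s1_mul, h1], by rw [s1_mul, h2]⟩

theorem cl_zero : cl (show (0 : R) * 0 = 0 by simp) = 0 := by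
  apply V.mk_eq.2
  have h1 : (s1 0 : Matrix (Fin 1) (Fin 1) R) = 0 := by ext i j; rfl
  show Eqv (s1 0) (Idem.zero R).mat
  rw [h1]
  exact Eqv.zero

theorem cl_eq_zero {p : R} (hp : p * p = p) : cl hp = 0 ↔ p = 0 := by
  constructor
  · intro h
    rw [← cl_zero, cl_eq] at h
    obtain ⟨x, y, h1, h2⟩ := h
    rw [← hp, ← h1]
    calc x * y * (x * y) = x * (y * x) * y := by simp only [mul_assoc]
      _ = 0 := by rw [h2]; simp
  · rintro rfl
    exact cl_zero

theorem cl_add {p q : R} (hp : p * p = p) (hq : q * q = q) (hpq : p * q = 0) (hqp : q * p = 0)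
    (h : (p + q) * (p + q) = p + q) : cl h = cl hp + cl hq := by
  rw [cl, cl, cl, V.add_mk]
  apply V.mk_eq.2
  have h1 := Eqv.blk (s1_idem hp) (s1_idem hq)
  refine Eqv.trans (s1_idem h) (blk_idem (s1_idem hp) (s1_idem hq)) ?_ h1
  refine ⟨Matrix.fromCols (s1 p) (s1 q), Matrix.fromRows (s1 p) (s1 q), ?_, ?_⟩
  · rw [colrow, s1_mul, s1_mul, hp, hq]
    ext i j; rfl
  · rw [rowcol, s1_mul, s1_mul, s1_mul, s1_mul, hp, hq, hpq, hqp]
    congr 1

theorem blk_mul {m n : ℕ} (e e' : Matrix (Fin m) (Fin m) R) (f f' : Matrix (Fin n) (Fin n) R) :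
    blk e f * blk e' f' = blk (e * e') (f * f') := by
  unfold blk
  rw [Matrix.submatrix_mul_equiv, Matrix.fromBlocks_multiply]
  simp

theorem blk_add {m n : ℕ} (e e' : Matrix (Fin m) (Fin m) R) (f f' : Matrix (Fin n) (Fin n) R) :
    blk e f + blk e' f' = blk (e + e') (f + f') := by
  have h := Matrix.fromBlocks_add e 0 0 f e' 0 0 f'
  rw [add_zero, add_zero] at h
  unfold blk
  rw [← h]
  rfl

theorem blk_zero {m n : ℕ} : blk (0 : Matrix (Fin m) (Fin m) R) (0 : Matrix (Fin n) (Fin n) R) = 0 := by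
  unfold blk
  simp

theorem cl_split {p : R} (hp : p * p = p) {x y : V R} (h : cl hp = x + y) :
    ∃ (e f : R) (he : e * e = e) (hf : f * f = f), e + f = p ∧ e * f = 0 ∧ f * e = 0 ∧
      cl he = x ∧ cl hf = y := by
  obtain ⟨e', rfl⟩ : ∃ e', x = V.mk e' := by
    obtain ⟨g, hg⟩ := Quotient.exists_rep x
    exact ⟨g, hg.symm⟩
  obtain ⟨f', rfl⟩ : ∃ e', y = V.mk e' := by
    obtain ⟨g, hg⟩ := Quotient.exists_rep y
    exact ⟨g, hg.symm⟩
  obtain ⟨a, b, h1, h2⟩ : ∃ (a : Matrix (Fin 1) (Fin (e'.size + f'.size)) R)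
      (b : Matrix (Fin (e'.size + f'.size)) (Fin 1) R), a * b = s1 p ∧
      b * a = blk e'.mat f'.mat := V.mk_eq.1 h
  obtain ⟨E, hE⟩ : ∃ E, E = blk e'.mat (0 : Matrix (Fin f'.size) (Fin f'.size) R) := ⟨_, rfl⟩
  obtain ⟨F, hF⟩ : ∃ F, F = blk (0 : Matrix (Fin e'.size) (Fin e'.size) R) f'.mat := ⟨_, rfl⟩
  have hEE : E * E = E := by rw [hE, blk_mul, e'.idem, mul_zero]
  have hFF : F * F = F := by rw [hF, blk_mul, f'.idem, mul_zero]
  have hEF : E * F = 0 := by rw [hE, hF, blk_mul, mul_zero, zero_mul, blk_zero]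
  have hFE : F * E = 0 := by rw [hE, hF, blk_mul, mul_zero, zero_mul, blk_zero]
  have hG : b * a = E + F := by rw [h2, hE, hF, blk_add, add_zero, zero_add]
  have hlift : ∀ z : Matrix (Fin 1) (Fin 1) R, s1 (z 0 0) = z := by
    intro z
    ext i j; rw [Subsingleton.elim i 0, Subsingleton.elim j 0]; rfl
  have key : ∀ X Y : Matrix (Fin (e'.size + f'.size)) (Fin (e'.size + f'.size)) R,
      (a * X * b) * (a * Y * b) = a * (X * (E + F) * Y) * b := by
    intro X Y
    rw [← hG]
    simp only [Matrix.mul_assoc]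
  have hee : (a * E * b) * (a * E * b) = a * E * b := by
    rw [key, Matrix.mul_add, hEE, hEF, add_zero, hEE]
  have hff : (a * F * b) * (a * F * b) = a * F * b := by
    rw [key, Matrix.mul_add, hFF, hFE, zero_add, hFF]
  have hef : (a * E * b) * (a * F * b) = 0 := by
    rw [key, Matrix.mul_add, hEE, hEF, add_zero, hEF, Matrix.mul_zero, Matrix.zero_mul]
  have hfe : (a * F * b) * (a * E * b) = 0 := by
    rw [key, Matrix.mul_add, hFF, hFE, zero_add, hFE, Matrix.mul_zero, Matrix.zero_mul]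
  have hsum : a * E * b + a * F * b = s1 p := by
    rw [← Matrix.add_mul, ← Matrix.mul_add, ← hG]
    calc a * (b * a) * b = (a * b) * (a * b) := by simp only [Matrix.mul_assoc]
      _ = s1 p := by rw [h1, s1_mul, hp]
  have he : (a * E * b) 0 0 * (a * E * b) 0 0 = (a * E * b) 0 0 := by
    apply s1_inj
    rw [← s1_mul, hlift, hee]
  have hf : (a * F * b) 0 0 * (a * F * b) 0 0 = (a * F * b) 0 0 := by
    apply s1_inj
    rw [← s1_mul, hlift, hff]
  refine ⟨(a * E * b) 0 0, (a * F * b) 0 0, he, hf, ?_, ?_, ?_, ?_, ?_⟩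
  · exact congrFun (congrFun hsum 0) 0
  · apply s1_inj
    rw [← s1_mul, hlift, hlift, hef]; ext i j; rfl
  · apply s1_inj
    rw [← s1_mul, hlift, hlift, hfe]; ext i j; rfl
  · apply V.mk_eq.2
    show Eqv (s1 _) e'.mat
    rw [hlift]
    have h3 : Eqv (a * E * b) E := by
      refine ⟨a * E, E * b, ?_, ?_⟩
      · rw [← Matrix.mul_assoc, Matrix.mul_assoc a, hEE]
      · calc E * b * (a * E) = E * (b * a) * E := by simp only [Matrix.mul_assoc]
          _ = E := by rw [hG, Matrix.mul_add, hEE, hEF, add_zero, hEE]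
    have h4 : Eqv E e'.mat := by
      rw [hE]
      exact Eqv.trans (blk_idem e'.idem (by simp)) e'.idem
        (Eqv.blk e'.idem (by simp)).symm (Eqv.stab e'.idem)
    exact Eqv.trans hee e'.idem h3 h4
  · apply V.mk_eq.2
    show Eqv (s1 _) f'.mat
    rw [hlift]
    have h3 : Eqv (a * F * b) F := by
      refine ⟨a * F, F * b, ?_, ?_⟩
      · rw [← Matrix.mul_assoc, Matrix.mul_assoc a, hFF]
      · calc F * b * (a * F) = F * (b * a) * F := by simp only [Matrix.mul_assoc]
          _ = F := by rw [hG, Matrix.mul_add, hFF, hFE, zero_add, hFF]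
    have h4 : Eqv F f'.mat := by
      rw [hF]
      have h5 : V.mk ⟨_, blk (0 : Matrix (Fin e'.size) (Fin e'.size) R) f'.mat,
          blk_idem (by simp) f'.idem⟩ = V.mk f' := by
        have h6 : V.mk ⟨_, (0 : Matrix (Fin e'.size) (Fin e'.size) R), by simp⟩ = 0 :=
          V.mk_eq.2 Eqv.zero
        calc _ = V.mk ⟨_, (0 : Matrix (Fin e'.size) (Fin e'.size) R), by simp⟩ + V.mk f' := rfl
          _ = V.mk f' := by rw [h6, zero_add]
      exact V.mk_eq.1 h5
    exact Eqv.trans hff f'.idem h3 h4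

theorem cl_map {S : Type v} [NonUnitalRing S] (φ : R →ₙ+* S) {p : R} (hp : p * p = p) :
    V.map φ (cl hp) = cl (show φ p * φ p = φ p by rw [← map_mul, hp]) := by
  apply V.mk_eq.2
  have : (s1 p).map φ = s1 (φ p) := by ext i j; rfl
  show Eqv ((s1 p).map φ) (s1 (φ p))
  rw [this]
  exact Eqv.refl (s1_idem (by rw [← map_mul, hp]))

end ring

/-! ### C*-algebras -/

/-- `p` is a projection -/
def IsProj {A : Type u} [NonUnitalRing A] [StarRing A] (p : A) : Prop := p * p = p ∧ star p = p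

section star
variable {A : Type u} [NonUnitalRing A] [StarRing A]

theorem s1_star (p : A) : (s1 p).conjTranspose = s1 (star p) := by
  ext i j; rfl

theorem s1_isPr {p : A} (h : IsProj p) : IsPr (s1 p) := ⟨s1_idem h.1, by rw [s1_star, h.2]⟩

/-- the class in `V(A)` of a projection of `A` -/
def pcl {p : A} (h : IsProj p) : VStar A := VStar.mk ⟨1, s1 p, s1_isPr h⟩

theorem pcl_eq {p q : A} (hp : IsProj p) (hq : IsProj q) (v : A) (h1 : star v * v = p)
    (h2 : v * star v = q) : pcl hp = pcl hq :=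
  VStar.mk_eq.2 ⟨s1 v, by rw [s1_star, s1_mul, h1], by rw [s1_star, s1_mul, h2]⟩

theorem IsProj.zero : IsProj (0 : A) := ⟨by simp, by simp⟩

theorem pcl_zero : pcl (IsProj.zero : IsProj (0 : A)) = 0 := by
  apply VStar.mk_eq.2
  have h1 : (s1 0 : Matrix (Fin 1) (Fin 1) A) = 0 := by ext i j; rfl
  show SEqv (s1 0) (Proj.zero A).mat
  rw [h1]
  exact SEqv.zero

theorem pcl_eq_zero {p : A} (hp : IsProj p) (h : pcl hp = 0) : p = 0 := by
  obtain ⟨v, h1, h2⟩ : ∃ v : Matrix (Fin 1) (Fin 1) A,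
      v.conjTranspose * v = s1 p ∧ v * v.conjTranspose = s1 0 :=
    VStar.mk_eq.1 (h.trans pcl_zero.symm)
  have h3 : (s1 0 : Matrix (Fin 1) (Fin 1) A) = 0 := by ext i j; rfl
  apply s1_inj
  rw [h3, ← (s1_idem hp.1), ← h1]
  calc v.conjTranspose * v * (v.conjTranspose * v) =
      v.conjTranspose * (v * v.conjTranspose) * v := by simp only [Matrix.mul_assoc]
    _ = 0 := by rw [h2, h3]; simp

theorem IsProj.add {p q : A} (hp : IsProj p) (hq : IsProj q) (hpq : p * q = 0) :
    IsProj (p + q) := by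
  have hqp : q * p = 0 := by
    have := congrArg star hpq
    rwa [star_mul, hp.2, hq.2, star_zero] at this
  exact ⟨by rw [add_mul, mul_add, mul_add, hp.1, hq.1, hpq, hqp, add_zero, zero_add],
    by rw [star_add, hp.2, hq.2]⟩

theorem pcl_add {p q : A} (hp : IsProj p) (hq : IsProj q) (hpq : p * q = 0) :
    pcl (hp.add hq hpq) = pcl hp + pcl hq := by
  have hqp : q * p = 0 := by
    have := congrArg star hpq
    rwa [star_mul, hp.2, hq.2, star_zero] at this
  rw [pcl, pcl, pcl, VStar.add_mk]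
  apply VStar.mk_eq.2
  have h1 := SEqv.blk (s1_isPr hp) (s1_isPr hq)
  refine SEqv.trans (s1_isPr (hp.add hq hpq)) ((s1_isPr hp).blk (s1_isPr hq)) ?_ h1
  refine ⟨Matrix.fromRows (s1 p) (s1 q), ?_, ?_⟩
  · rw [Matrix.conjTranspose_fromRows_eq_fromCols_conjTranspose, colrow, s1_star, s1_star, hp.2,
      hq.2, s1_mul, s1_mul, hp.1, hq.1]
    ext i j; rfl
  · rw [Matrix.conjTranspose_fromRows_eq_fromCols_conjTranspose, rowcol, s1_star, s1_star, hp.2,
      hq.2, s1_mul, s1_mul, s1_mul, s1_mul, hp.1, hq.1, hpq, hqp]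
    congr 1

theorem blk_star {m n : ℕ} (e : Matrix (Fin m) (Fin m) A) (f : Matrix (Fin n) (Fin n) A) :
    (blk e f).conjTranspose = blk e.conjTranspose f.conjTranspose := by
  unfold blk
  rw [Matrix.conjTranspose_submatrix, Matrix.fromBlocks_conjTranspose]
  simp

theorem pcl_split {p : A} (hp : IsProj p) {x y : VStar A} (h : pcl hp = x + y) :
    ∃ (e f : A) (he : IsProj e) (hf : IsProj f), e + f = p ∧ e * f = 0 ∧ f * e = 0 ∧
      pcl he = x ∧ pcl hf = y := by
  obtain ⟨e', rfl⟩ : ∃ e', x = VStar.mk e' := by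
    obtain ⟨g, hg⟩ := Quotient.exists_rep x
    exact ⟨g, hg.symm⟩
  obtain ⟨f', rfl⟩ : ∃ e', y = VStar.mk e' := by
    obtain ⟨g, hg⟩ := Quotient.exists_rep y
    exact ⟨g, hg.symm⟩
  obtain ⟨b, h1, h2⟩ : ∃ b : Matrix (Fin (e'.size + f'.size)) (Fin 1) A,
      b.conjTranspose * b = s1 p ∧ b * b.conjTranspose = blk e'.mat f'.mat := VStar.mk_eq.1 h
  obtain ⟨a, ha⟩ : ∃ a, a = b.conjTranspose := ⟨_, rfl⟩
  have hab : a.conjTranspose = b := by rw [ha, Matrix.conjTranspose_conjTranspose]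
  rw [← ha] at h1 h2
  obtain ⟨E, hE⟩ : ∃ E, E = blk e'.mat (0 : Matrix (Fin f'.size) (Fin f'.size) A) := ⟨_, rfl⟩
  obtain ⟨F, hF⟩ : ∃ F, F = blk (0 : Matrix (Fin e'.size) (Fin e'.size) A) f'.mat := ⟨_, rfl⟩
  have hEE : E * E = E := by rw [hE, blk_mul, e'.isPr.1, mul_zero]
  have hFF : F * F = F := by rw [hF, blk_mul, f'.isPr.1, mul_zero]
  have hEs : E.conjTranspose = E := by
    rw [hE, blk_star, e'.isPr.2, Matrix.conjTranspose_zero]
  have hFs : F.conjTranspose = F := by
    rw [hF, blk_star, f'.isPr.2, Matrix.conjTranspose_zero]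
  have hEF : E * F = 0 := by rw [hE, hF, blk_mul, mul_zero, zero_mul, blk_zero]
  have hFE : F * E = 0 := by rw [hE, hF, blk_mul, mul_zero, zero_mul, blk_zero]
  have hG : b * a = E + F := by rw [h2, hE, hF, blk_add, add_zero, zero_add]
  have hlift : ∀ z : Matrix (Fin 1) (Fin 1) A, s1 (z 0 0) = z := by
    intro z
    ext i j; rw [Subsingleton.elim i 0, Subsingleton.elim j 0]; rfl
  have key : ∀ X Y : Matrix (Fin (e'.size + f'.size)) (Fin (e'.size + f'.size)) A,
      (a * X * b) * (a * Y * b) = a * (X * (E + F) * Y) * b := by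
    intro X Y
    rw [← hG]
    simp only [Matrix.mul_assoc]
  have keys : ∀ X : Matrix (Fin (e'.size + f'.size)) (Fin (e'.size + f'.size)) A,
      X.conjTranspose = X → (a * X * b).conjTranspose = a * X * b := by
    intro X hX
    rw [Matrix.conjTranspose_mul, Matrix.conjTranspose_mul, hX, hab, ← ha, Matrix.mul_assoc]
  have hee : (a * E * b) * (a * E * b) = a * E * b := by
    rw [key, Matrix.mul_add, hEE, hEF, add_zero, hEE]
  have hff : (a * F * b) * (a * F * b) = a * F * b := by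
    rw [key, Matrix.mul_add, hFF, hFE, zero_add, hFF]
  have hef : (a * E * b) * (a * F * b) = 0 := by
    rw [key, Matrix.mul_add, hEE, hEF, add_zero, hEF, Matrix.mul_zero, Matrix.zero_mul]
  have hfe : (a * F * b) * (a * E * b) = 0 := by
    rw [key, Matrix.mul_add, hFF, hFE, zero_add, hFE, Matrix.mul_zero, Matrix.zero_mul]
  have hsum : a * E * b + a * F * b = s1 p := by
    rw [← Matrix.add_mul, ← Matrix.mul_add, ← hG]
    calc a * (b * a) * b = (a * b) * (a * b) := by simp only [Matrix.mul_assoc]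
      _ = s1 p := by rw [h1, s1_mul, hp.1]
  have he : IsProj ((a * E * b) 0 0) := by
    constructor
    · apply s1_inj
      rw [← s1_mul, hlift, hee]
    · apply s1_inj
      rw [← s1_star, hlift, keys E hEs]
  have hf : IsProj ((a * F * b) 0 0) := by
    constructor
    · apply s1_inj
      rw [← s1_mul, hlift, hff]
    · apply s1_inj
      rw [← s1_star, hlift, keys F hFs]
  have hpe : IsPr (a * E * b) := ⟨hee, keys E hEs⟩
  have hpf : IsPr (a * F * b) := ⟨hff, keys F hFs⟩
  refine ⟨(a * E * b) 0 0, (a * F * b) 0 0, he, hf, ?_, ?_, ?_, ?_, ?_⟩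
  · exact congrFun (congrFun hsum 0) 0
  · apply s1_inj
    rw [← s1_mul, hlift, hlift, hef]; ext i j; rfl
  · apply s1_inj
    rw [← s1_mul, hlift, hlift, hfe]; ext i j; rfl
  · apply VStar.mk_eq.2
    show SEqv (s1 _) e'.mat
    rw [hlift]
    have h3 : SEqv (a * E * b) E := by
      refine ⟨E * b, ?_, ?_⟩
      · rw [Matrix.conjTranspose_mul, hEs, ← ha, ← Matrix.mul_assoc, Matrix.mul_assoc a, hEE]
      · rw [Matrix.conjTranspose_mul, hEs, ← ha]
        calc E * b * (a * E) = E * (b * a) * E := by simp only [Matrix.mul_assoc]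
          _ = E := by rw [hG, Matrix.mul_add, hEE, hEF, add_zero, hEE]
    have h4 : SEqv E e'.mat := by
      rw [hE]
      exact SEqv.trans (e'.isPr.blk IsPr.zero) e'.isPr
        (SEqv.blk e'.isPr IsPr.zero).symm (SEqv.stab e'.isPr)
    exact SEqv.trans hpe e'.isPr h3 h4
  · apply VStar.mk_eq.2
    show SEqv (s1 _) f'.mat
    rw [hlift]
    have h3 : SEqv (a * F * b) F := by
      refine ⟨F * b, ?_, ?_⟩
      · rw [Matrix.conjTranspose_mul, hFs, ← ha, ← Matrix.mul_assoc, Matrix.mul_assoc a, hFF]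
      · rw [Matrix.conjTranspose_mul, hFs, ← ha]
        calc F * b * (a * F) = F * (b * a) * F := by simp only [Matrix.mul_assoc]
          _ = F := by rw [hG, Matrix.mul_add, hFF, hFE, zero_add, hFF]
    have h4 : SEqv F f'.mat := by
      rw [hF]
      have h5 : VStar.mk ⟨_, blk (0 : Matrix (Fin e'.size) (Fin e'.size) A) f'.mat,
          IsPr.zero.blk f'.isPr⟩ = VStar.mk f' := by
        have h6 : VStar.mk ⟨_, (0 : Matrix (Fin e'.size) (Fin e'.size) A), IsPr.zero⟩ = 0 :=
          VStar.mk_eq.2 SEqv.zero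
        calc _ = VStar.mk ⟨_, (0 : Matrix (Fin e'.size) (Fin e'.size) A), IsPr.zero⟩ +
            VStar.mk f' := rfl
          _ = VStar.mk f' := by rw [h6, zero_add]
      exact VStar.mk_eq.1 h5
    exact SEqv.trans hpf f'.isPr h3 h4

end star

section cstar
variable {A : Type u} [NonUnitalCStarAlgebra A]

theorem IsProj.map {B : Type v} [NonUnitalCStarAlgebra B] (φ : A →⋆ₙₐ[ℂ] B) {p : A}
    (hp : IsProj p) : IsProj (φ p) := ⟨by rw [← map_mul, hp.1], by rw [← map_star, hp.2]⟩

theorem pcl_map {B : Type v} [NonUnitalCStarAlgebra B] (φ : A →⋆ₙₐ[ℂ] B) {p : A}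
    (hp : IsProj p) : VStar.map φ (pcl hp) = pcl (hp.map φ) := by
  apply VStar.mk_eq.2
  have : (s1 p).map φ = s1 (φ p) := by ext i j; rfl
  show SEqv ((s1 p).map φ) (s1 (φ p))
  rw [this]
  exact SEqv.refl (s1_isPr (hp.map φ))

/-- an atom of a monoid -/
def IsAtomic {N : Type v} [AddCommMonoid N] (a : N) : Prop :=
  a ≠ 0 ∧ ∀ x y, x + y = a → x = 0 ∨ y = 0

theorem min_of_atom {e : A} (he : IsProj e) (h : IsAtomic (pcl he)) (f : A) (hf : f * f = f)
    (hfs : star f = f) (hef : e * f = f) : f = 0 ∨ f = e := by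
  have hfp : IsProj f := ⟨hf, hfs⟩
  have hfe : f * e = f := by
    have := congrArg star hef
    rwa [star_mul, hfs, he.2] at this
  have hd : IsProj (e - f) := ⟨by
    rw [sub_mul, mul_sub, mul_sub, he.1, hef, hfe, hf]; abel, by rw [star_sub, he.2, hfs]⟩
  have ho : f * (e - f) = 0 := by rw [mul_sub, hfe, hf, sub_self]
  have h1 := pcl_add hfp hd ho
  have h2 : pcl hfp + pcl hd = pcl he := by
    rw [← h1]
    congr 1
    abel
  rcases h.2 _ _ h2 with h3 | h3
  · left; exact pcl_eq_zero _ h3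
  · right; exact (sub_eq_zero.1 (pcl_eq_zero _ h3)).symm

theorem orth_of_ne (hr : RealRankZero A) {p q : A} (hp : IsProj p) (hq : IsProj q)
    (ap : IsAtomic (pcl hp)) (aq : IsAtomic (pcl hq)) (hne : pcl hp ≠ pcl hq) (x : A) :
    p * x * q = 0 := by
  by_contra hy0
  obtain ⟨y, hy⟩ : ∃ y, y = p * x * q := ⟨_, rfl⟩
  rw [← hy] at hy0
  have hpy : p * y = y := by rw [hy, ← mul_assoc, ← mul_assoc, hp.1]
  have hyq : y * q = y := by rw [hy, mul_assoc, hq.1]
  have hqy : q * star y = star y := by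
    have := congrArg star hyq
    rwa [star_mul, hq.2] at this
  have hyp : star y * p = star y := by
    have := congrArg star hpy
    rwa [star_mul, hp.2] at this
  obtain ⟨c, hc⟩ := H494R3.LD.min_scalar hr hq.1 hq.2 (min_of_atom hq aq) (star y * y)
  have hc : star y * y = c • q := by
    rw [← hc, ← mul_assoc, hqy, mul_assoc, hyq]
  obtain ⟨d, hd⟩ := H494R3.LD.min_scalar hr hp.1 hp.2 (min_of_atom hp ap) (y * star y)
  have hd : y * star y = d • p := by
    rw [← hd, ← mul_assoc, hpy, mul_assoc, hyp]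
  have hyy : star y * y ≠ 0 := fun h => hy0 ((CStarRing.star_mul_self_eq_zero_iff y).1 h)
  have hq0 : q ≠ 0 := by
    rintro rfl
    rw [smul_zero] at hc
    exact hyy hc
  have hc0 : c ≠ 0 := by
    rintro rfl
    rw [zero_smul] at hc
    exact hyy hc
  have hcr : (starRingEnd ℂ) c = c := by
    have h1 : star (star y * y) = star y * y := by rw [star_mul, star_star]
    rw [hc, star_smul, hq.2] at h1
    have h2 : (star c - c) • q = 0 := by rw [sub_smul, h1, sub_self]
    rcases smul_eq_zero.1 h2 with h3 | h3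
    · exact sub_eq_zero.1 h3
    · exact absurd h3 hq0
  obtain ⟨r, hr'⟩ : ∃ r : ℝ, (r : ℂ) = c := Complex.conj_eq_iff_real.1 hcr |>.imp fun _ h => h.symm
  have hcr' : star y * y = r • q := by rw [hc, ← hr']; exact Complex.coe_smul r q
  have hr0 : 0 < r := by
    by_contra hneg
    push Not at hneg
    let _ := CStarAlgebra.spectralOrder A
    have _ := CStarAlgebra.spectralOrderedRing A
    have h1 : 0 ≤ star y * y := star_mul_self_nonneg y
    have h2 : 0 ≤ q := by
      have := star_mul_self_nonneg q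
      rwa [hq.2, hq.1] at this
    have h3 : r • q ≤ 0 := smul_nonpos_of_nonpos_of_nonneg hneg h2
    rw [← hcr'] at h3
    exact hyy (le_antisymm h3 h1)
  obtain ⟨t, ht⟩ : ∃ t : ℝ, t = (Real.sqrt r)⁻¹ := ⟨_, rfl⟩
  have htr : t * t * r = 1 := by
    rw [ht, ← mul_inv, Real.mul_self_sqrt hr0.le, inv_mul_cancel₀ hr0.ne']
  have hw1 : star (t • y) * (t • y) = q := by
    rw [star_smul, star_trivial, smul_mul_assoc, mul_smul_comm, smul_smul, hcr', smul_smul, htr,
      one_smul]
  have hw2 : (t • y) * star (t • y) = (t * t * d) • p := by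
    rw [star_smul, star_trivial, smul_mul_assoc, mul_smul_comm, smul_smul, hd]
    rw [show ((t * t : ℝ) : ℝ) • d • p = (((t * t : ℝ) : ℂ)) • d • p from
      (Complex.coe_smul (t * t) (d • p)).symm, smul_smul]
    push_cast
    rfl
  have hw3 : ((t • y) * star (t • y)) * ((t • y) * star (t • y)) = (t • y) * star (t • y) := by
    calc ((t • y) * star (t • y)) * ((t • y) * star (t • y)) =
        (t • y) * (star (t • y) * (t • y)) * star (t • y) := by simp only [mul_assoc]
      _ = (t • y) * star (t • y) := by rw [hw1, smul_mul_assoc, hyq]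
  have hw4 : (t • y) * star (t • y) ≠ 0 := by
    intro h
    have h1 := (CStarRing.mul_star_self_eq_zero_iff _).1 h
    rw [h1, mul_zero] at hw1
    exact hq0 hw1.symm
  have hw5 : p * ((t • y) * star (t • y)) = (t • y) * star (t • y) := by
    rw [hw2, mul_smul_comm, hp.1]
  have hw6 : star ((t • y) * star (t • y)) = (t • y) * star (t • y) := by
    rw [star_mul, star_star]
  rcases min_of_atom hp ap _ hw3 hw6 hw5 with h | h
  · exact hw4 h
  · exact hne (pcl_eq hq hp (t • y) hw1 h).symm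

theorem unique_under (hr : RealRankZero A) {f₁ f₂ f₃ h : A} (h₁ : IsProj f₁) (h₂ : IsProj f₂)
    (h₃ : IsProj f₃) (hh : IsProj h) (a₁ : IsAtomic (pcl h₁)) (a₂ : IsAtomic (pcl h₂))
    (a₃ : IsAtomic (pcl h₃)) (n₂ : pcl h₁ ≠ pcl h₂) (n₃ : pcl h₁ ≠ pcl h₃)
    (hc : pcl hh = pcl h₁) (hu : (f₁ + f₂ + f₃) * h = h) : h = f₁ := by
  have ah : IsAtomic (pcl hh) := by rw [hc]; exact a₁
  have e2 : f₂ * h = 0 := by
    have := orth_of_ne hr h₂ hh a₂ ah (by rw [hc]; exact n₂.symm) h
    rwa [mul_assoc, hh.1] at this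
  have e3 : f₃ * h = 0 := by
    have := orth_of_ne hr h₃ hh a₃ ah (by rw [hc]; exact n₃.symm) h
    rwa [mul_assoc, hh.1] at this
  have e1 : f₁ * h = h := by
    rw [add_mul, add_mul, e2, e3, add_zero, add_zero] at hu
    exact hu
  rcases min_of_atom h₁ a₁ h hh.1 hh.2 e1 with h0 | h0
  · exfalso
    apply a₁.1
    rw [← hc]
    subst h0
    exact pcl_zero
  · exact h0

end cstar

end Pool.Agent.W408.LD
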