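import Pool.Agent.W408.LD.R2
import Pool.Agent.W408.LD.R3

set_option autoImplicit false

/-!
The linear relations: in characteristic zero the projections attached to the decompositions of the
unit of `M_3(F_2)` coincide.
-/

namespace Pool.Agent.W408.LD

open CategoryTheory

universe u v

/-- three orthogonal idempotents with sum one -/
def Orth (x y z : Mat) : Prop :=
  (x * x = x ∧ y * y = y ∧ z * z = z) ∧ (x * y = 0 ∧ y * x = 0) ∧ (x * z = 0 ∧ z * x = 0) ∧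
    (y * z = 0 ∧ z * y = 0) ∧ x + y + z = 1

instance (x y z : Mat) : Decidable (Orth x y z) := by unfold Orth; infer_instance

/-- matrices of rank one -/
def g (a b : Fin 3 → ZMod 2) : Mat := Matrix.of fun i j => a i * b j

theorem coincide {B : Type u} [AddCommGroup B] [Module ℂ B] (q : Mat → B) (e : B)
    (h : ∀ x y z : Mat, Orth x y z → x ≠ 0 → y ≠ 0 → z ≠ 0 → q x + q y + q z = e) :
    q (g ![0, 0, 1] ![0, 0, 1]) = q (g ![0, 1, 0] ![0, 1, 0]) := by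
  have h0 := h (g ![0, 0, 1] ![0, 0, 1]) (g ![0, 1, 0] ![1, 1, 0]) (g ![1, 1, 0] ![1, 0, 0])
    (by decide) (by decide) (by decide) (by decide)
  have h1 := h (g ![0, 0, 1] ![0, 0, 1]) (g ![1, 0, 0] ![1, 1, 0]) (g ![1, 1, 0] ![0, 1, 0])
    (by decide) (by decide) (by decide) (by decide)
  have h2 := h (g ![0, 0, 1] ![0, 1, 1]) (g ![0, 1, 1] ![1, 1, 0]) (g ![1, 1, 1] ![1, 0, 0])
    (by decide) (by decide) (by decide) (by decide)
  have h3 := h (g ![0, 0, 1] ![0, 1, 1]) (g ![1, 0, 0] ![1, 1, 0]) (g ![1, 1, 1] ![0, 1, 0])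
    (by decide) (by decide) (by decide) (by decide)
  have h4 := h (g ![0, 0, 1] ![1, 0, 1]) (g ![0, 1, 0] ![0, 1, 0]) (g ![1, 0, 1] ![1, 0, 0])
    (by decide) (by decide) (by decide) (by decide)
  have h5 := h (g ![0, 0, 1] ![1, 0, 1]) (g ![1, 0, 1] ![1, 1, 0]) (g ![1, 1, 1] ![0, 1, 0])
    (by decide) (by decide) (by decide) (by decide)
  have h6 := h (g ![0, 0, 1] ![1, 1, 1]) (g ![0, 1, 1] ![0, 1, 0]) (g ![1, 0, 1] ![1, 0, 0])
    (by decide) (by decide) (by decide) (by decide)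
  have h7 := h (g ![0, 0, 1] ![1, 1, 1]) (g ![1, 0, 1] ![1, 1, 0]) (g ![1, 1, 0] ![0, 1, 0])
    (by decide) (by decide) (by decide) (by decide)
  have h8 := h (g ![0, 1, 0] ![0, 1, 0]) (g ![1, 0, 0] ![1, 0, 1]) (g ![1, 0, 1] ![0, 0, 1])
    (by decide) (by decide) (by decide) (by decide)
  have h9 := h (g ![0, 1, 0] ![0, 1, 1]) (g ![0, 1, 1] ![1, 0, 1]) (g ![1, 1, 1] ![1, 0, 0])
    (by decide) (by decide) (by decide) (by decide)
  have h10 := h (g ![0, 1, 0] ![0, 1, 1]) (g ![1, 0, 0] ![1, 0, 1]) (g ![1, 1, 1] ![0, 0, 1])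
    (by decide) (by decide) (by decide) (by decide)
  have h11 := h (g ![0, 1, 0] ![1, 1, 0]) (g ![1, 1, 0] ![1, 0, 1]) (g ![1, 1, 1] ![0, 0, 1])
    (by decide) (by decide) (by decide) (by decide)
  have h12 := h (g ![0, 1, 0] ![1, 1, 1]) (g ![0, 1, 1] ![0, 0, 1]) (g ![1, 1, 0] ![1, 0, 0])
    (by decide) (by decide) (by decide) (by decide)
  have h13 := h (g ![0, 1, 0] ![1, 1, 1]) (g ![1, 0, 1] ![0, 0, 1]) (g ![1, 1, 0] ![1, 0, 1])
    (by decide) (by decide) (by decide) (by decide)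
  have h14 := h (g ![0, 1, 1] ![0, 0, 1]) (g ![1, 0, 0] ![1, 1, 1]) (g ![1, 1, 0] ![0, 1, 1])
    (by decide) (by decide) (by decide) (by decide)
  have h15 := h (g ![0, 1, 1] ![0, 1, 0]) (g ![1, 0, 0] ![1, 1, 1]) (g ![1, 0, 1] ![0, 1, 1])
    (by decide) (by decide) (by decide) (by decide)
  have h16 := h (g ![0, 1, 1] ![1, 0, 1]) (g ![1, 0, 1] ![0, 1, 1]) (g ![1, 1, 1] ![1, 1, 1])
    (by decide) (by decide) (by decide) (by decide)
  have h17 := h (g ![0, 1, 1] ![1, 1, 0]) (g ![1, 1, 0] ![0, 1, 1]) (g ![1, 1, 1] ![1, 1, 1])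
    (by decide) (by decide) (by decide) (by decide)
  generalize q (g ![0, 0, 1] ![0, 0, 1]) = x0 at *
  generalize q (g ![0, 0, 1] ![0, 1, 1]) = x1 at *
  generalize q (g ![0, 0, 1] ![1, 0, 1]) = x2 at *
  generalize q (g ![0, 0, 1] ![1, 1, 1]) = x3 at *
  generalize q (g ![0, 1, 0] ![0, 1, 0]) = x4 at *
  generalize q (g ![0, 1, 0] ![0, 1, 1]) = x5 at *
  generalize q (g ![0, 1, 0] ![1, 1, 0]) = x6 at *
  generalize q (g ![0, 1, 0] ![1, 1, 1]) = x7 at *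
  generalize q (g ![0, 1, 1] ![0, 0, 1]) = x8 at *
  generalize q (g ![0, 1, 1] ![0, 1, 0]) = x9 at *
  generalize q (g ![0, 1, 1] ![1, 0, 1]) = x10 at *
  generalize q (g ![0, 1, 1] ![1, 1, 0]) = x11 at *
  generalize q (g ![1, 0, 0] ![1, 0, 1]) = x13 at *
  generalize q (g ![1, 0, 0] ![1, 1, 0]) = x14 at *
  generalize q (g ![1, 0, 0] ![1, 1, 1]) = x15 at *
  generalize q (g ![1, 0, 1] ![0, 0, 1]) = x16 at *
  generalize q (g ![1, 0, 1] ![0, 1, 1]) = x17 at *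
  generalize q (g ![1, 0, 1] ![1, 0, 0]) = x18 at *
  generalize q (g ![1, 0, 1] ![1, 1, 0]) = x19 at *
  generalize q (g ![1, 1, 0] ![0, 1, 0]) = x20 at *
  generalize q (g ![1, 1, 0] ![0, 1, 1]) = x21 at *
  generalize q (g ![1, 1, 0] ![1, 0, 0]) = x22 at *
  generalize q (g ![1, 1, 0] ![1, 0, 1]) = x23 at *
  generalize q (g ![1, 1, 1] ![0, 0, 1]) = x24 at *
  generalize q (g ![1, 1, 1] ![0, 1, 0]) = x25 at *
  generalize q (g ![1, 1, 1] ![1, 0, 0]) = x26 at *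
  generalize q (g ![1, 1, 1] ![1, 1, 1]) = x27 at *
  linear_combination (norm := module) (1 / 2 : ℂ) • h0 + (1 / 2 : ℂ) • h1 + (1 / 2 : ℂ) • h2 - (1 / 2 : ℂ) • h3 - (1 / 2 : ℂ) • h4 + (1 / 2 : ℂ) • h5 + (1 / 2 : ℂ) • h6 - (1 / 2 : ℂ) • h7 - (1 / 2 : ℂ) • h8 - (1 / 2 : ℂ) • h9 + (1 / 2 : ℂ) • h10 - (1 / 2 : ℂ) • h11 - (1 / 2 : ℂ) • h12 + (1 / 2 : ℂ) • h13 + (1 / 2 : ℂ) • h14 - (1 / 2 : ℂ) • h15 + (1 / 2 : ℂ) • h16 - (1 / 2 : ℂ) • h17

theorem orth_04 : g ![0, 0, 1] ![0, 0, 1] * g ![0, 1, 0] ![0, 1, 0] = 0 := by decide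

end Pool.Agent.W408.LD
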