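import Pool.Agent.W408.LD.R4

set_option autoImplicit false

/-!
The diagram does not lift by C*-algebras of real rank zero.
-/

namespace Pool.Agent.W408.LD

open CategoryTheory

universe u v

/-! ### the subrings -/

/-- the subring of the combinations of three orthogonal idempotents -/
def tri (x y z : Mat) (h : Orth x y z) : Subring Mat where
  carrier := {m | ∃ a b c : ZMod 2, m = a • x + b • y + c • z}
  mul_mem' := by
    rintro _ _ ⟨a, b, c, rfl⟩ ⟨a', b', c', rfl⟩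
    obtain ⟨⟨h1, h2, h3⟩, ⟨h4, h5⟩, ⟨h6, h7⟩, ⟨h8, h9⟩, h10⟩ := h
    refine ⟨a * a', b * b', c * c', ?_⟩
    simp only [add_mul, mul_add, smul_mul_smul_comm, h1, h2, h3, h4, h5, h6, h7, h8, h9, smul_zero,
      add_zero, zero_add]
  one_mem' := ⟨1, 1, 1, by simp only [one_smul]; exact h.2.2.2.2.symm⟩
  add_mem' := by
    rintro _ _ ⟨a, b, c, rfl⟩ ⟨a', b', c', rfl⟩
    exact ⟨a + a', b + b', c + c', by module⟩
  zero_mem' := ⟨0, 0, 0, by simp⟩
  neg_mem' := by
    rintro _ ⟨a, b, c, rfl⟩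
    exact ⟨-a, -b, -c, by module⟩

theorem zmod2_mul (a : ZMod 2) : a * a = a := by revert a; decide

theorem zmod2_cases (a : ZMod 2) : a = 0 ∨ a = 1 := by revert a; decide

theorem tri_bool {x y z : Mat} (h : Orth x y z) : ∀ m ∈ tri x y z h, m * m = m := by
  rintro _ ⟨a, b, c, rfl⟩
  obtain ⟨⟨h1, h2, h3⟩, ⟨h4, h5⟩, ⟨h6, h7⟩, ⟨h8, h9⟩, h10⟩ := h
  simp only [add_mul, mul_add, smul_mul_smul_comm, h1, h2, h3, h4, h5, h6, h7, h8, h9, smul_zero,
    add_zero, zero_add, zmod2_mul]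

/-- the subring as an element of the lattice -/
def triP (x y z : Mat) (h : Orth x y z) : P := ⟨tri x y z h, Or.inr (tri_bool h)⟩

theorem mem1 {x y z : Mat} (h : Orth x y z) : x ∈ tri x y z h := ⟨1, 0, 0, by simp⟩
theorem mem2 {x y z : Mat} (h : Orth x y z) : y ∈ tri x y z h := ⟨0, 1, 0, by simp⟩
theorem mem3 {x y z : Mat} (h : Orth x y z) : z ∈ tri x y z h := ⟨0, 0, 1, by simp⟩

theorem tri_min {x y z : Mat} (h : Orth x y z) {f : Mat} (hf : f ∈ tri x y z h) (hx : x * f = f) :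
    f = 0 ∨ f = x := by
  obtain ⟨a, b, c, rfl⟩ := hf
  obtain ⟨⟨h1, h2, h3⟩, ⟨h4, h5⟩, ⟨h6, h7⟩, ⟨h8, h9⟩, h10⟩ := h
  rw [mul_add, mul_add, mul_smul_comm, mul_smul_comm, mul_smul_comm, h1, h4, h6, smul_zero,
    smul_zero, add_zero, add_zero] at hx
  rw [← hx]
  have := zmod2_cases a
  rcases this with h | h
  · left; rw [h, zero_smul]
  · right; rw [h, one_smul]

theorem tri_min2 {x y z : Mat} (h : Orth x y z) {f : Mat} (hf : f ∈ tri x y z h) (hx : y * f = f) :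
    f = 0 ∨ f = y := by
  obtain ⟨a, b, c, rfl⟩ := hf
  obtain ⟨⟨h1, h2, h3⟩, ⟨h4, h5⟩, ⟨h6, h7⟩, ⟨h8, h9⟩, h10⟩ := h
  rw [mul_add, mul_add, mul_smul_comm, mul_smul_comm, mul_smul_comm, h2, h5, h8, smul_zero,
    smul_zero, zero_add, add_zero] at hx
  rw [← hx]
  have := zmod2_cases b
  rcases this with h | h
  · left; rw [h, zero_smul]
  · right; rw [h, one_smul]

theorem tri_min3 {x y z : Mat} (h : Orth x y z) {f : Mat} (hf : f ∈ tri x y z h) (hx : z * f = f) :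
    f = 0 ∨ f = z := by
  obtain ⟨a, b, c, rfl⟩ := hf
  obtain ⟨⟨h1, h2, h3⟩, ⟨h4, h5⟩, ⟨h6, h7⟩, ⟨h8, h9⟩, h10⟩ := h
  rw [mul_add, mul_add, mul_smul_comm, mul_smul_comm, mul_smul_comm, h3, h7, h9, smul_zero,
    smul_zero, zero_add, zero_add] at hx
  rw [← hx]
  have := zmod2_cases c
  rcases this with h | h
  · left; rw [h, zero_smul]
  · right; rw [h, one_smul]

/-- class of an idempotent element of a member of the lattice -/
theorem sub_idem {S : P} {x : Mat} (hx : x ∈ S.1) (h : x * x = x) :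
    (⟨x, hx⟩ : S.1) * ⟨x, hx⟩ = ⟨x, hx⟩ := Subtype.ext h

/-- class in `V(S)` -/
def scl (S : P) {x : Mat} (hx : x ∈ S.1) (h : x * x = x) : V S.1 := cl (sub_idem hx h)

theorem scl_ne_zero {S : P} {x : Mat} (hx : x ∈ S.1) (h : x * x = x) (h0 : x ≠ 0) :
    scl S hx h ≠ 0 := by
  intro hh
  exact h0 (congrArg Subtype.val ((cl_eq_zero _).1 hh))

theorem scl_atom {S : P} {x : Mat} (hx : x ∈ S.1) (h : x * x = x) (h0 : x ≠ 0)
    (hmin : ∀ f ∈ S.1, x * f = f → f = 0 ∨ f = x) : IsAtomic (scl S hx h) := by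
  refine ⟨scl_ne_zero hx h h0, ?_⟩
  intro a b hab
  obtain ⟨e, f, he, hf, h1, h2, h3, h4, h5⟩ := cl_split (sub_idem hx h) hab.symm
  have h6 : x * e.1 = e.1 := by
    have h7 : (⟨x, hx⟩ : S.1) * e = e := by rw [← h1, add_mul, he, h3, add_zero]
    exact congrArg Subtype.val h7
  rcases hmin e.1 e.2 h6 with h7 | h7
  · left
    rw [← h4]
    exact (cl_eq_zero he).2 (Subtype.ext h7)
  · right
    rw [← h5]
    apply (cl_eq_zero hf).2
    have h8 : e = ⟨x, hx⟩ := Subtype.ext h7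
    rw [h8] at h1
    have h9 : (⟨x, hx⟩ : S.1) + f = ⟨x, hx⟩ + 0 := by rw [h1, add_zero]
    exact add_left_cancel h9

theorem scl_ne {S : P} (hS : ∀ x ∈ S.1, x * x = x) {x y : Mat} (hx : x ∈ S.1) (hy : y ∈ S.1)
    (h : x * x = x) (h' : y * y = y) (hxy : x ≠ y) : scl S hx h ≠ scl S hy h' := by
  intro hh
  obtain ⟨a, b, h1, h2⟩ := (cl_eq _ _).1 hh
  let _ : BooleanRing S.1 :=
    { (inferInstance : Ring S.1) with
      isIdempotentElem := fun x => Subtype.ext (hS x.1 x.2) }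
  apply hxy
  have h3 : a * b = b * a := mul_comm a b
  rw [h1, h2] at h3
  exact congrArg Subtype.val h3

theorem scl_sum {S : P} {x y z : Mat} (h : Orth x y z) (hx : x ∈ S.1) (hy : y ∈ S.1)
    (hz : z ∈ S.1) (h1 : (1 : Mat) ∈ S.1) :
    scl S h1 (mul_one 1) = scl S hx h.1.1 + (scl S hy h.1.2.1 + scl S hz h.1.2.2) := by
  obtain ⟨⟨e1, e2, e3⟩, ⟨e4, e5⟩, ⟨e6, e7⟩, ⟨e8, e9⟩, e10⟩ := h
  have h2 : ((⟨y, hy⟩ : S.1) + ⟨z, hz⟩) * (⟨y, hy⟩ + ⟨z, hz⟩) = ⟨y, hy⟩ + ⟨z, hz⟩ := by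
    apply Subtype.ext
    show (y + z) * (y + z) = y + z
    rw [add_mul, mul_add, mul_add, e2, e3, e8, e9, add_zero, zero_add]
  have h3 : ((⟨x, hx⟩ : S.1) + (⟨y, hy⟩ + ⟨z, hz⟩)) * (⟨x, hx⟩ + (⟨y, hy⟩ + ⟨z, hz⟩)) =
      ⟨x, hx⟩ + (⟨y, hy⟩ + ⟨z, hz⟩) := by
    apply Subtype.ext
    show (x + (y + z)) * (x + (y + z)) = x + (y + z)
    rw [← add_assoc, e10, mul_one]
  have h4 := cl_add (sub_idem hy e2) (sub_idem hz e3) (Subtype.ext e8) (Subtype.ext e9) h2
  have h5 := cl_add (sub_idem hx e1) h2 (by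
    apply Subtype.ext
    show x * (y + z) = 0
    rw [mul_add, e4, e6, add_zero]) (by
    apply Subtype.ext
    show (y + z) * x = 0
    rw [add_mul, e5, e7, add_zero]) h3
  unfold scl
  rw [← h4, ← h5]
  have h6 : (⟨1, h1⟩ : S.1) = ⟨x, hx⟩ + (⟨y, hy⟩ + ⟨z, hz⟩) := by
    apply Subtype.ext
    show (1 : Mat) = x + (y + z)
    rw [← add_assoc, e10]
  congr 1

/-- the bottom -/
def S0 : P := ⟨(algebraMap (ZMod 2) Mat).range, Or.inr (by
  rintro _ ⟨a, rfl⟩
  rw [← map_mul, zmod2_mul])⟩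

theorem S0_le (S : P) : S0 ≤ S := by
  rintro _ ⟨a, rfl⟩
  have := zmod2_cases a
  rcases this with h | h
  · rw [h, map_zero]; exact S.1.zero_mem
  · rw [h, map_one]; exact S.1.one_mem

theorem S0_nat : Nonempty (V S0.1 ≃+ ℕ) := by
  obtain ⟨e⟩ := V.field (ZMod 2)
  have h : Function.Bijective (algebraMap (ZMod 2) Mat).rangeRestrict :=
    ⟨fun a b hab => (algebraMap (ZMod 2) Mat).injective (congrArg Subtype.val hab),
      RingHom.rangeRestrict_surjective _⟩
  exact ⟨(V.congr (RingEquiv.ofBijective _ h)).symm.trans e⟩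

theorem one_mem (S : P) : (1 : Mat) ∈ S.1 := S.1.one_mem

/-- class of the unit -/
def ucl (S : P) : V S.1 := scl S (one_mem S) (mul_one 1)

theorem S0_dich (z : V S0.1) (hz : z ≠ 0) : ∃ y, z = ucl S0 + y := by
  obtain ⟨e⟩ := S0_nat
  have hat : IsAtomic (ucl S0) := by
    apply scl_atom _ _ one_ne_zero
    rintro _ ⟨a, rfl⟩ _
    have := zmod2_cases a
    rcases this with h | h
    · left; rw [h, map_zero]
    · right; rw [h, map_one]
  have h1 : e (ucl S0) = 1 := by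
    have h2 : e (ucl S0) ≠ 0 := fun h => hat.1 (by simpa using h)
    obtain ⟨m, hm⟩ := Nat.exists_eq_succ_of_ne_zero h2
    rcases hat.2 (e.symm 1) (e.symm m) (by
      rw [← map_add, e.symm_apply_eq, hm]; omega) with h | h
    · exfalso
      have := congrArg e h
      simp at this
    · have := congrArg e h
      rw [e.apply_symm_apply, map_zero] at this
      rw [hm, this]
  have h2 : e z ≠ 0 := fun h => hz (by simpa using h)
  obtain ⟨m, hm⟩ := Nat.exists_eq_succ_of_ne_zero h2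
  refine ⟨e.symm m, ?_⟩
  apply e.injective
  rw [map_add, e.apply_symm_apply, h1, hm]
  omega

theorem M_scl {S T : P} (h : S ≤ T) {x : Mat} (hx : x ∈ S.1) (hxx : x * x = x) :
    M.map (homOfLE h) (scl S hx hxx) = scl T (h hx) hxx :=
  cl_map _ _

/-! ### the lifting -/

section lifting
variable (L : Lifting VRR0.{u} M)

/-- the algebras -/
abbrev AA (S : P) : Type u := (L.F.obj S).carrier

/-- the maps -/
def AA.hom {S T : P} (h : S ≤ T) : AA L S →⋆ₙₐ[ℂ] AA L T := L.F.map (homOfLE h)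

theorem AA.hom_comp {S T U : P} (h : S ≤ T) (h' : T ≤ U) (x : AA L S) :
    AA.hom L h' (AA.hom L h x) = AA.hom L (h.trans h') x := by
  have h1 : L.F.map (homOfLE (h.trans h')) = L.F.map (homOfLE h) ≫ L.F.map (homOfLE h') := by
    rw [← L.F.map_comp]; rfl
  unfold AA.hom
  rw [h1]
  rfl

/-- the isomorphisms -/
def AA.iso (S : P) : VStar (AA L S) ≃+ V S.1 := L.iso S

theorem AA.nat {S T : P} (h : S ≤ T) {p : AA L S} (hp : IsProj p) {x : Mat} (hx : x ∈ S.1)
    (hxx : x * x = x) (he : AA.iso L S (pcl hp) = scl S hx hxx) :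
    AA.iso L T (pcl (hp.map (AA.hom L h))) = scl T (h hx) hxx := by
  rw [← pcl_map]
  have h1 := L.natural (homOfLE h) (pcl hp)
  have h2 : L.iso S (pcl hp) = scl S hx hxx := he
  rw [h2] at h1
  exact h1.trans (M_scl h hx hxx)

theorem AA.rr (S : P) : RealRankZero (AA L S) := (L.F.obj S).rr0

theorem iso_atom {N : Type u} {N' : Type v} [AddCommMonoid N] [AddCommMonoid N'] (e : N ≃+ N')
    {a : N} (h : IsAtomic (e a)) : IsAtomic a := by
  refine ⟨fun h0 => h.1 (by rw [h0, map_zero]), fun x y hxy => ?_⟩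
  rcases h.2 (e x) (e y) (by rw [← map_add, hxy]) with h1 | h1
  · left; simpa using h1
  · right; simpa using h1

theorem exists_unit : ∃ (e : AA L S0) (he : IsProj e), AA.iso L S0 (pcl he) = ucl S0 := by
  have hne : ∃ x : AA L S0, x ≠ 0 := by
    by_contra hcon
    push Not at hcon
    apply scl_ne_zero (S := S0) (one_mem S0) (mul_one 1) one_ne_zero
    obtain ⟨z, hz⟩ := (AA.iso L S0).surjective (scl S0 (one_mem S0) (mul_one 1))
    rw [← hz]
    have : z = 0 := by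
      obtain ⟨a, ha⟩ := Quotient.exists_rep z
      rw [← ha]
      apply VStar.mk_eq.2
      have h1 : a.mat = 0 := by
        ext i j
        exact hcon _
      rw [h1]
      exact SEqv.zero
    rw [this, map_zero]
  obtain ⟨x, hx⟩ := hne
  have h1 : star (star x * x) = star x * x := by rw [star_mul, star_star]
  have h2 : star x * x ≠ 0 := fun h => hx ((CStarRing.star_mul_self_eq_zero_iff x).1 h)
  obtain ⟨f, hf, hff, hfs, _, _⟩ := H494R3.LD.exists_proj (A := AA L S0) (AA.rr L S0) h1 h2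
  have hp : IsProj f := ⟨hff, hfs⟩
  have h3 : AA.iso L S0 (pcl hp) ≠ 0 := by
    intro h
    apply hf
    apply pcl_eq_zero hp
    simpa using h
  obtain ⟨y, hy⟩ := S0_dich _ h3
  have h4 : pcl hp = (AA.iso L S0).symm (ucl S0) + (AA.iso L S0).symm y := by
    rw [← map_add, ← hy, AddEquiv.symm_apply_apply]
  obtain ⟨e, _, he, _, _, _, _, h5, _⟩ := pcl_split hp h4
  exact ⟨e, he, by rw [h5, AddEquiv.apply_symm_apply]⟩

theorem main_false (L : Lifting VRR0.{u} M) : False := by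
  obtain ⟨e, he, hee⟩ := exists_unit L
  -- the units
  obtain ⟨E, hE⟩ : ∃ E : ∀ S : P, AA L S, E = fun S => AA.hom L (S0_le S) e := ⟨_, rfl⟩
  have hEp : ∀ S, IsProj (E S) := fun S => by rw [hE]; exact he.map _
  have hEhom : ∀ (S T : P) (h : S ≤ T), AA.hom L h (E S) = E T := fun S T h => by
    rw [hE]; exact AA.hom_comp L _ _ _
  have hEc : ∀ S, AA.iso L S (pcl (hEp S)) = ucl S := fun S => by
    subst hE
    exact AA.nat L (S0_le S) he (one_mem S0) (mul_one 1) hee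
  -- the projections of the rank one idempotents
  have hx : ∀ x : Mat, x * x = x → Orth x (1 - x) 0 := fun x h => by
    refine ⟨⟨h, ?_, by simp⟩, ⟨?_, ?_⟩, ⟨by simp, by simp⟩, ⟨by simp, by simp⟩, by simp⟩
    · rw [sub_mul, mul_sub, mul_sub, one_mul, mul_one, h]; simp
    · rw [mul_sub, mul_one, h, sub_self]
    · rw [sub_mul, one_mul, h, sub_self]
  have hex : ∀ (x : Mat) (h : x * x = x), ∃ (p : AA L (triP x (1 - x) 0 (hx x h)))
      (hp : IsProj p), E _ * p = p ∧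
      AA.iso L _ (pcl hp) = scl (triP x (1 - x) 0 (hx x h)) (mem1 (hx x h)) h := by
    intro x h
    have h1 := scl_sum (S := triP x (1 - x) 0 (hx x h)) (hx x h) (mem1 (hx x h)) (mem2 (hx x h))
      (mem3 (hx x h)) (one_mem _)
    have h2 : pcl (hEp (triP x (1 - x) 0 (hx x h))) =
        (AA.iso L _).symm (scl (triP x (1 - x) 0 (hx x h)) (mem1 (hx x h)) h) +
        (AA.iso L _).symm (scl _ (mem2 (hx x h)) (hx x h).1.2.1 +
          scl _ (mem3 (hx x h)) (hx x h).1.2.2) := by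
      rw [← map_add, ← h1]
      exact ((AddEquiv.symm_apply_eq _).2 (hEc _).symm).symm
    obtain ⟨p, r, hp, _, h3, _, h5, h6, _⟩ := pcl_split _ h2
    refine ⟨p, hp, ?_, by rw [h6, AddEquiv.apply_symm_apply]⟩
    rw [← h3, add_mul, hp.1, h5, add_zero]
  choose p hp hEpp hpc using hex
  obtain ⟨q, hq⟩ : ∃ q : Mat → AA L ⊤, q = fun x => if h : x * x = x then
      AA.hom L (le_top : triP x (1 - x) 0 (hx x h) ≤ ⊤) (p x h) else 0 := ⟨_, rfl⟩
  have hqx : ∀ (x : Mat) (h : x * x = x), q x =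
      AA.hom L (le_top : triP x (1 - x) 0 (hx x h) ≤ ⊤) (p x h) := fun x h => by
    rw [hq]; exact dif_pos h
  -- in a maximal Boolean subring
  have key : ∀ x y z : Mat, ∀ h : Orth x y z, x ≠ 0 → y ≠ 0 → z ≠ 0 →
      ∃ f₁ f₂ f₃ : AA L (triP x y z h), f₁ + f₂ + f₃ = E _ ∧ f₁ * f₂ = 0 ∧
        AA.hom L le_top f₁ = q x ∧ AA.hom L le_top f₂ = q y ∧ AA.hom L le_top f₃ = q z := by
    intro x y z h hx0 hy0 hz0
    obtain ⟨S, hS⟩ : ∃ S, S = triP x y z h := ⟨_, rfl⟩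
    rw [← hS]
    have mx : x ∈ S.1 := by rw [hS]; exact mem1 h
    have my : y ∈ S.1 := by rw [hS]; exact mem2 h
    have mz : z ∈ S.1 := by rw [hS]; exact mem3 h
    have h1 := scl_sum (S := S) h mx my mz (one_mem _)
    have h2 : pcl (hEp S) = (AA.iso L _).symm (scl S mx h.1.1) +
        ((AA.iso L _).symm (scl S my h.1.2.1) + (AA.iso L _).symm (scl S mz h.1.2.2)) := by
      rw [← map_add, ← map_add, ← h1]
      exact ((AddEquiv.symm_apply_eq _).2 (hEc _).symm).symm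
    obtain ⟨f₁, r, hf₁, hr, s1, o1, o2, c1, c2⟩ := pcl_split _ h2
    obtain ⟨f₂, f₃, hf₂, hf₃, s2, o3, o4, c3, c4⟩ := pcl_split _ c2
    have hrf₂ : r * f₂ = f₂ := by rw [← s2, add_mul, hf₂.1, o4, add_zero]
    have hf₂r : f₂ * r = f₂ := by rw [← s2, mul_add, hf₂.1, o3, add_zero]
    have hrf₃ : r * f₃ = f₃ := by rw [← s2, add_mul, hf₃.1, o3, zero_add]
    have hf₃r : f₃ * r = f₃ := by rw [← s2, mul_add, hf₃.1, o4, zero_add]
    have o12 : f₁ * f₂ = 0 := by rw [← hrf₂, ← mul_assoc, o1, zero_mul]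
    have o13 : f₁ * f₃ = 0 := by rw [← hrf₃, ← mul_assoc, o1, zero_mul]
    have a1 : IsAtomic (pcl hf₁) := iso_atom (AA.iso L S) (by
      rw [c1, AddEquiv.apply_symm_apply]
      subst hS
      exact scl_atom _ _ hx0 fun f hf => tri_min h hf)
    have a2 : IsAtomic (pcl hf₂) := iso_atom (AA.iso L S) (by
      rw [c3, AddEquiv.apply_symm_apply]
      subst hS
      exact scl_atom _ _ hy0 fun f hf => tri_min2 h hf)
    have a3 : IsAtomic (pcl hf₃) := iso_atom (AA.iso L S) (by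
      rw [c4, AddEquiv.apply_symm_apply]
      subst hS
      exact scl_atom _ _ hz0 fun f hf => tri_min3 h hf)
    have hSb : ∀ m ∈ S.1, m * m = m := by rw [hS]; exact tri_bool h
    have hxy : x ≠ y := by
      intro hxy
      apply hx0
      rw [← h.1.1]
      nth_rewrite 2 [hxy]
      exact h.2.1.1
    have hxz : x ≠ z := by
      intro hxy
      apply hx0
      rw [← h.1.1]
      nth_rewrite 2 [hxy]
      exact h.2.2.1.1
    have hyz : y ≠ z := by
      intro hxy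
      apply hy0
      rw [← h.1.2.1]
      nth_rewrite 2 [hxy]
      exact h.2.2.2.1.1
    have n12 : pcl hf₁ ≠ pcl hf₂ := by
      rw [c1, c3]
      intro hh
      exact scl_ne hSb mx my h.1.1 h.1.2.1 hxy ((AA.iso L S).symm.injective hh)
    have n13 : pcl hf₁ ≠ pcl hf₃ := by
      rw [c1, c4]
      intro hh
      exact scl_ne hSb mx mz h.1.1 h.1.2.2 hxz ((AA.iso L S).symm.injective hh)
    have n23 : pcl hf₂ ≠ pcl hf₃ := by
      rw [c3, c4]
      intro hh
      exact scl_ne hSb my mz h.1.2.1 h.1.2.2 hyz ((AA.iso L S).symm.injective hh)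
    have hsum : f₁ + f₂ + f₃ = E S := by rw [add_assoc, s2, s1]
    -- comparison
    have hle : ∀ (w : Mat) (hw : w * w = w), w ∈ S.1 → triP w (1 - w) 0 (hx w hw) ≤ S := by
      rintro w hw hwS _ ⟨a, b, c, rfl⟩
      have smem : ∀ (a : ZMod 2) (m : Mat), m ∈ S.1 → a • m ∈ S.1 := by
        intro a m hm
        have := zmod2_cases a
        rcases this with h | h
        · rw [h, zero_smul]; exact S.1.zero_mem
        · rw [h, one_smul]; exact hm
      exact S.1.add_mem (S.1.add_mem (smem a w hwS) (smem b _ (S.1.sub_mem S.1.one_mem hwS)))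
        (smem c 0 S.1.zero_mem)
    have hcomp : ∀ (w : Mat) (hw : w * w = w) (hwS : w ∈ S.1),
        AA.iso L S (pcl ((hp w hw).map (AA.hom L (hle w hw hwS)))) = scl S hwS hw := by
      intro w hw hwS
      exact AA.nat L (hle w hw hwS) (hp w hw) (mem1 (hx w hw)) hw (hpc w hw)
    have hund : ∀ (w : Mat) (hw : w * w = w) (hwS : w ∈ S.1),
        E S * AA.hom L (hle w hw hwS) (p w hw) = AA.hom L (hle w hw hwS) (p w hw) := by
      intro w hw hwS
      rw [← hEhom _ _ (hle w hw hwS), ← map_mul, hEpp]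
    have htop : ∀ (w : Mat) (hw : w * w = w) (hwS : w ∈ S.1),
        AA.hom L le_top (AA.hom L (hle w hw hwS) (p w hw)) = q w := by
      intro w hw hwS
      rw [hqx w hw, AA.hom_comp]
    have e1 : AA.hom L (hle x h.1.1 mx) (p x h.1.1) = f₁ := by
      apply unique_under (AA.rr L S) hf₁ hf₂ hf₃ ((hp x h.1.1).map _) a1 a2 a3 n12 n13
      · apply (AA.iso L S).injective
        rw [hcomp, c1, AddEquiv.apply_symm_apply]
      · rw [hsum]; exact hund x h.1.1 mx
    have e2 : AA.hom L (hle y h.1.2.1 my) (p y h.1.2.1) = f₂ := by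
      apply unique_under (AA.rr L S) hf₂ hf₁ hf₃ ((hp y h.1.2.1).map _) a2 a1 a3 n12.symm n23
      · apply (AA.iso L S).injective
        rw [hcomp, c3, AddEquiv.apply_symm_apply]
      · rw [add_comm f₂ f₁, hsum]; exact hund y h.1.2.1 my
    have e3 : AA.hom L (hle z h.1.2.2 mz) (p z h.1.2.2) = f₃ := by
      apply unique_under (AA.rr L S) hf₃ hf₁ hf₂ ((hp z h.1.2.2).map _) a3 a1 a2 n13.symm n23.symm
      · apply (AA.iso L S).injective
        rw [hcomp, c4, AddEquiv.apply_symm_apply]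
      · rw [add_assoc, add_comm f₃, hsum]; exact hund z h.1.2.2 mz
    refine ⟨f₁, f₂, f₃, hsum, o12, ?_, ?_, ?_⟩
    · rw [← e1, htop x h.1.1 mx]
    · rw [← e2, htop y h.1.2.1 my]
    · rw [← e3, htop z h.1.2.2 mz]
  have hrel : ∀ x y z : Mat, Orth x y z → x ≠ 0 → y ≠ 0 → z ≠ 0 → q x + q y + q z = E ⊤ := by
    intro x y z h hx0 hy0 hz0
    obtain ⟨f₁, f₂, f₃, h1, _, h2, h3, h4⟩ := key x y z h hx0 hy0 hz0
    rw [← h2, ← h3, ← h4, ← map_add, ← map_add, h1, hEhom]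
  have horth : ∀ x y z : Mat, Orth x y z → x ≠ 0 → y ≠ 0 → z ≠ 0 → q x * q y = 0 := by
    intro x y z h hx0 hy0 hz0
    obtain ⟨f₁, f₂, f₃, _, h1, h2, h3, h4⟩ := key x y z h hx0 hy0 hz0
    rw [← h2, ← h3, ← map_mul, h1, map_zero]
  have h1 := coincide q (E ⊤) hrel
  have h2 := horth (g ![0, 0, 1] ![0, 0, 1]) (g ![0, 1, 0] ![0, 1, 0]) (g ![1, 0, 0] ![1, 0, 0])
    (by decide) (by decide) (by decide) (by decide)
  rw [← h1] at h2
  have hid : g ![0, 0, 1] ![0, 0, 1] * g ![0, 0, 1] ![0, 0, 1] = g ![0, 0, 1] ![0, 0, 1] := by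
    decide
  have h3 : q (g ![0, 0, 1] ![0, 0, 1]) * q (g ![0, 0, 1] ![0, 0, 1]) =
      q (g ![0, 0, 1] ![0, 0, 1]) := by
    rw [hqx _ hid, ← map_mul, (hp _ hid).1]
  rw [h3] at h2
  obtain ⟨w, hw⟩ : ∃ w, w = g ![0, 0, 1] ![0, 0, 1] := ⟨_, rfl⟩
  have hw0 : w ≠ 0 := by rw [hw]; decide
  rw [← hw] at hid h2
  have hle : triP w (1 - w) 0 (hx w hid) ≤ ⊤ := le_top
  have h4 := AA.nat L hle (hp w hid) (mem1 (hx w hid)) hid (hpc w hid)
  have h5 : AA.hom L hle (p w hid) = 0 := by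
    rw [hqx w hid] at h2
    exact h2
  have h6 : pcl ((hp w hid).map (AA.hom L hle)) = 0 := by
    rw [← pcl_zero]
    congr 1
  rw [h6, map_zero] at h4
  exact scl_ne_zero _ _ hw0 h4.symm

end lifting

end Pool.Agent.W408.LD
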